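import Pool.Agent.K7.H63.MR.Words

/-!
Words of digits and numbers.
-/

set_option autoImplicit false

open Finset

namespace Pool.Agent.K7.H63.MR

/-- the integer formed by the first `j` digits of `w` -/
def val (b : ℕ) (w : ℕ → ℕ) : ℕ → ℕ
  | 0 => 0
  | j + 1 => val b w j * b + w j

lemma val_lt {b : ℕ} {w : ℕ → ℕ} {l : ℕ} (hw : ∀ i < l, w i < b) :
    ∀ j ≤ l, val b w j < b ^ j := by
  intro j
  induction j with
  | zero => intro _; simp [val]
  | succ j ih =>
    intro hj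
    have h1 := ih (by omega)
    have h2 := hw j (by omega)
    rw [val, pow_succ]
    have h3 : (val b w j + 1) * b ≤ b ^ j * b := Nat.mul_le_mul_right _ h1
    nlinarith

lemma digits_of_val {b : ℕ} (hb : 2 ≤ b) {w : ℕ → ℕ} {l : ℕ} (hw : ∀ i < l, w i < b) (x : ℝ) (k : ℕ)
    (h : ⌊x * (b : ℝ) ^ (k + l)⌋ % ((b ^ l : ℕ) : ℤ) = val b w l) :
    ∀ i < l, dgb b x (k + 1 + i) = w i := by
  have hbz : (0 : ℤ) < b := by exact_mod_cast (by omega : 0 < b)
  have hP : ∀ i ≤ l, ∃ z : ℤ, ⌊x * (b : ℝ) ^ (k + (l - i))⌋ =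
      (b : ℤ) ^ (l - i) * z + val b w (l - i) := by
    intro i
    induction i with
    | zero =>
      intro _
      refine ⟨⌊x * (b : ℝ) ^ (k + l)⌋ / ((b ^ l : ℕ) : ℤ), ?_⟩
      have h1 := Int.emod_add_mul_ediv ⌊x * (b : ℝ) ^ (k + l)⌋ ((b ^ l : ℕ) : ℤ)
      rw [h] at h1
      rw [Nat.sub_zero]
      push_cast at h1 ⊢
      linarith
    | succ i ih =>
      intro hi
      obtain ⟨z, hz⟩ := ih (by omega)
      obtain ⟨j, hj⟩ : ∃ j, l - i = j + 1 := ⟨l - i - 1, by omega⟩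
      have hj' : l - (i + 1) = j := by omega
      rw [hj] at hz
      rw [hj']
      refine ⟨z, ?_⟩
      have h1 : ⌊x * (b : ℝ) ^ (k + (j + 1))⌋ / (b : ℤ) = ⌊x * (b : ℝ) ^ (k + j)⌋ :=
        (floor_step b x (k + j)).resolve_right (by omega)
      rw [← h1, hz, val]
      have h2 := hw j (by omega)
      push_cast
      have e : (b : ℤ) ^ (j + 1) * z + ((val b w j : ℤ) * b + w j) =
          w j + b * (b ^ j * z + val b w j) := by rw [pow_succ]; ring
      rw [e, Int.add_mul_ediv_left _ _ hbz.ne', Int.ediv_eq_zero_of_lt (Int.natCast_nonneg _)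
        (by exact_mod_cast h2)]
      ring
  intro i hi
  obtain ⟨z, hz⟩ := hP (l - (i + 1)) (by omega)
  have e : l - (l - (i + 1)) = i + 1 := by omega
  rw [e] at hz
  unfold dgb
  have e2 : k + 1 + i = k + (i + 1) := by ring
  rw [e2, hz, val]
  have h2 := hw i hi
  push_cast
  have e : (b : ℤ) ^ (i + 1) * z + ((val b w i : ℤ) * b + w i) =
      w i + b * (b ^ i * z + val b w i) := by rw [pow_succ]; ring
  rw [e, Int.add_mul_emod_self_left]
  exact Int.emod_eq_of_lt (Int.natCast_nonneg _) (by exact_mod_cast h2)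

end Pool.Agent.K7.H63.MR
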