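import Pool.Agent.K7.H63.MR.Words

/-!
Changes of digits of `Q √2` in base `b`.
-/

set_option autoImplicit false

open Finset

namespace Pool.Agent.K7.H63.MR

/-- the digits with the integer part -/
noncomputable def dgi (b : ℕ) (α : ℝ) (k : ℕ) : ℤ := if k = 0 then ⌊α⌋ else dgb b α k

lemma dgb_mem {b : ℕ} (hb : 2 ≤ b) (α : ℝ) (k : ℕ) : 0 ≤ dgb b α k ∧ dgb b α k < b := by
  have h : (0 : ℤ) < b := by exact_mod_cast (by omega : 0 < b)
  exact ⟨Int.emod_nonneg _ h.ne', Int.emod_lt_of_pos _ h⟩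

lemma sum_dgi {b : ℕ} (hb : 2 ≤ b) (α : ℝ) (n : ℕ) :
    ∑ k ∈ range (n + 1), (dgi b α k : ℝ) / (b : ℝ) ^ k = ⌊α * (b : ℝ) ^ n⌋ / (b : ℝ) ^ n := by
  have hb0 : (0 : ℝ) < b := by exact_mod_cast (by omega : 0 < b)
  induction n with
  | zero => simp [dgi]
  | succ n ih =>
    rw [sum_range_succ, ih]
    have h1 : dgi b α (n + 1) = dgb b α (n + 1) := by
      unfold dgi; rw [if_neg (Nat.succ_ne_zero n)]
    have h2 := (floor_step b α n).resolve_right (by omega)
    have h3 := Int.emod_add_mul_ediv ⌊α * (b : ℝ) ^ (n + 1)⌋ b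
    rw [h2] at h3
    have h4 : (⌊α * (b : ℝ) ^ (n + 1)⌋ : ℝ) = dgb b α (n + 1) + b * ⌊α * (b : ℝ) ^ n⌋ := by
      unfold dgb
      exact_mod_cast h3.symm
    rw [h1, h4, pow_succ]
    field_simp
    ring

lemma hasSum_dgi {b : ℕ} (hb : 2 ≤ b) (α : ℝ) :
    HasSum (fun k : ℕ => (dgi b α k : ℝ) / (b : ℝ) ^ k) α := by
  have hbR : (2 : ℝ) ≤ b := by exact_mod_cast hb
  have hb0 : (0 : ℝ) < b := by linarith
  have hsum : Summable (fun k : ℕ => (dgi b α k : ℝ) / (b : ℝ) ^ k) := by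
    rw [← summable_nat_add_iff 1]
    refine Summable.of_norm_bounded (g := fun k : ℕ => (b : ℝ) * ((1 : ℝ) / b) ^ (k + 1)) ?_ ?_
    · refine Summable.mul_left _ ((summable_nat_add_iff 1).2 ?_)
      refine summable_geometric_of_lt_one (by positivity) ?_
      rw [div_lt_one hb0]; linarith
    · intro k
      have h1 : dgi b α (k + 1) = dgb b α (k + 1) := by
        unfold dgi; rw [if_neg (Nat.succ_ne_zero k)]
      have h2 := dgb_mem hb α (k + 1)
      rw [h1, norm_div, norm_pow, Real.norm_eq_abs, Real.norm_eq_abs, abs_of_pos hb0, one_div,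
        inv_pow, ← div_eq_mul_inv]
      refine div_le_div_of_nonneg_right ?_ (by positivity)
      rw [abs_of_nonneg (by exact_mod_cast h2.1)]
      exact_mod_cast h2.2.le
  have hlim : Filter.Tendsto (fun n : ℕ => ∑ k ∈ range (n + 1), (dgi b α k : ℝ) / (b : ℝ) ^ k)
      Filter.atTop (nhds α) := by
    simp_rw [sum_dgi hb α]
    have h1 : Filter.Tendsto (fun n : ℕ => α - ((1 : ℝ) / b) ^ n) Filter.atTop (nhds (α - 0)) := by
      refine Filter.Tendsto.sub tendsto_const_nhds ?_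
      refine tendsto_pow_atTop_nhds_zero_of_lt_one (by positivity) ?_
      rw [div_lt_one hb0]; linarith
    rw [sub_zero] at h1
    refine tendsto_of_tendsto_of_tendsto_of_le_of_le h1 tendsto_const_nhds ?_ ?_
    · intro n
      have h2 := Int.lt_floor_add_one (α * (b : ℝ) ^ n)
      have h3 : (0 : ℝ) < (b : ℝ) ^ n := by positivity
      show α - ((1 : ℝ) / b) ^ n ≤ ⌊α * (b : ℝ) ^ n⌋ / (b : ℝ) ^ n
      rw [le_div_iff₀ h3, sub_mul, one_div, inv_pow, inv_mul_cancel₀ h3.ne']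
      linarith
    · intro n
      have h2 := Int.floor_le (α * (b : ℝ) ^ n)
      have h3 : (0 : ℝ) < (b : ℝ) ^ n := by positivity
      show (⌊α * (b : ℝ) ^ n⌋ : ℝ) / (b : ℝ) ^ n ≤ α
      rw [div_le_iff₀ h3]
      exact h2
  have h1 := (hsum.hasSum.tendsto_sum_nat.comp (Filter.tendsto_add_atTop_nat 1))
  have h2 := tendsto_nhds_unique h1 hlim
  have h3 := hsum.hasSum
  rwa [h2] at h3

/-- the sequence of the differences of neighbouring digits -/
noncomputable def eps (b : ℕ) (α : ℝ) (k : ℕ) : ℤ :=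
  dgi b α k - dgi b α (k + 1) - if k = 0 then b * ⌊α⌋ else 0

lemma hasSum_eps {b : ℕ} (hb : 2 ≤ b) (α : ℝ) :
    HasSum (fun k : ℕ => (eps b α k : ℝ) / (b : ℝ) ^ k) ((1 - b) * α) := by
  have hb0 : (0 : ℝ) < b := by exact_mod_cast (by omega : 0 < b)
  have h1 := hasSum_dgi hb α
  have h2 : HasSum (fun k : ℕ => (dgi b α (k + 1) : ℝ) / (b : ℝ) ^ (k + 1)) (α - ⌊α⌋) := by
    have := (hasSum_nat_add_iff' (f := fun k : ℕ => (dgi b α k : ℝ) / (b : ℝ) ^ k) 1).2 h1
    simpa [dgi] using this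
  have h3 : HasSum (fun k : ℕ => (dgi b α (k + 1) : ℝ) / (b : ℝ) ^ k) (b * (α - ⌊α⌋)) := by
    have := h2.mul_left (b : ℝ)
    refine this.congr_fun ?_ |> fun h => h
    intro k
    rw [pow_succ]
    field_simp
  have h4 : HasSum (fun k : ℕ => if k = 0 then (b : ℝ) * ⌊α⌋ else 0) (b * ⌊α⌋) :=
    hasSum_ite_eq 0 _
  have h5 := (h1.sub h3).sub h4
  have e : α - b * (α - ⌊α⌋) - b * ⌊α⌋ = (1 - b) * α := by ring
  rw [e] at h5
  refine h5.congr_fun ?_ |> fun h => h
  intro k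
  unfold eps
  by_cases hk : k = 0
  · subst hk
    simp
  · rw [if_neg hk, if_neg hk]
    push_cast
    ring

lemma eps_ne {b : ℕ} {α : ℝ} {k : ℕ} (hk : 1 ≤ k) (h : eps b α k ≠ 0) :
    dgb b α k ≠ dgb b α (k + 1) := by
  intro h1
  apply h
  unfold eps dgi
  rw [if_neg (by omega), if_neg (by omega), if_neg (by omega), h1]
  ring

lemma eps_bounded {b : ℕ} (hb : 2 ≤ b) (α : ℝ) : ∃ C : ℕ, ∀ k, |eps b α k| ≤ C := by
  refine ⟨b + (eps b α 0).natAbs, fun k => ?_⟩
  by_cases hk : k = 0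
  · subst hk
    push_cast
    have : (0 : ℤ) ≤ b := Int.natCast_nonneg b
    linarith
  · have h1 := dgb_mem hb α k
    have h2 := dgb_mem hb α (k + 1)
    have h3 : eps b α k = dgb b α k - dgb b α (k + 1) := by
      unfold eps dgi
      rw [if_neg hk, if_neg (by omega), if_neg hk]
      ring
    rw [h3, abs_le]
    push_cast
    have : (0 : ℤ) ≤ |eps b α 0| := abs_nonneg _
    omega

/-- Changes of digits of `Q √2` in base `b`. -/
theorem changes {b : ℕ} (hb : 2 ≤ b) {Q : ℕ} (hQ : 1 ≤ Q) :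
    ∃ c : ℝ, 0 < c ∧ ∀ᶠ n : ℕ in Filter.atTop,
      c * (Real.log n ^ 3 / Real.log (Real.log n) ^ 4) ≤ (chg b (Q * Real.sqrt 2) n : ℝ) := by
  set α : ℝ := Q * Real.sqrt 2 with hα
  obtain ⟨C, hC⟩ := eps_bounded hb α
  have hsum := hasSum_eps hb α
  have hD : ((1 - (b : ℝ)) * α) ^ 2 = ((2 * ((b - 1) * Q) ^ 2 : ℤ) : ℝ) := by
    rw [hα, mul_pow, mul_pow, Real.sq_sqrt (by norm_num)]
    push_cast; ring
  obtain ⟨c, hc, hev⟩ := Pool.Agent.K7.H59.DC.cubic_bound b hb C (eps b α) hC _ hsum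
    (2 * ((b - 1) * Q) ^ 2) hD 8 3 (b * Q + 8) (by norm_num)
    (by decide) (by
      intro p hpp hp8 hpgt
      have : Fact p.Prime := ⟨hpp⟩
      have hp8' : p % 8 = 3 := by simpa using hp8
      have hp2 : p ≠ 2 := by rintro rfl; norm_num at hp8'
      have hbQ : b ≤ b * Q := Nat.le_mul_of_pos_right _ (by omega)
      have hQb : Q ≤ b * Q := Nat.le_mul_of_pos_left _ (by omega)
      have hb' : ((b : ℕ) : ZMod p) ≠ 0 := by
        intro h
        rw [ZMod.natCast_eq_zero_iff] at h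
        have := Nat.le_of_dvd (by omega) h
        omega
      have hb1' : (((b - 1 : ℕ)) : ZMod p) ≠ 0 := by
        intro h
        rw [ZMod.natCast_eq_zero_iff] at h
        have := Nat.le_of_dvd (by omega) h
        omega
      have hQp : ((Q : ℕ) : ZMod p) ≠ 0 := by
        intro h
        rw [ZMod.natCast_eq_zero_iff] at h
        have := Nat.le_of_dvd (by omega) h
        omega
      have h2p : (2 : ZMod p) ≠ 0 := by
        intro h
        have h' : ((2 : ℕ) : ZMod p) = 0 := by exact_mod_cast h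
        rw [ZMod.natCast_eq_zero_iff] at h'
        exact hp2 ((Nat.prime_dvd_prime_iff_eq hpp Nat.prime_two).mp h')
      have hnonsq : ¬ IsSquare (2 : ZMod p) := by
        rw [ZMod.exists_sq_eq_two_iff hp2]
        omega
      have ecast : ((b : ZMod p) - 1) = ((b - 1 : ℕ) : ZMod p) := by
        rw [Nat.cast_sub (by omega)]; simp
      have hR : (((b : ZMod p) - 1) * Q) ≠ 0 := by
        rw [ecast]
        exact mul_ne_zero hb1' hQp
      refine ⟨hp2, hb', ?_⟩
      have hne : (((2 * (((b : ℤ) - 1) * Q) ^ 2 : ℤ)) : ZMod p) ≠ 0 := by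
        push_cast
        exact mul_ne_zero h2p (pow_ne_zero 2 hR)
      have h1 : (p - 1) / 2 = p / 2 := by
        omega
      rw [h1]
      rcases ZMod.pow_div_two_eq_neg_one_or_one p hne with h | h
      · exfalso
        rw [← ZMod.euler_criterion p hne] at h
        apply hnonsq
        obtain ⟨r, hr⟩ := h
        push_cast at hr
        refine ⟨r / (((b : ZMod p) - 1) * Q), ?_⟩
        have h3 : (((b : ZMod p) - 1) * Q) ≠ 0 := hR
        rw [div_mul_div_comm, ← hr, eq_div_iff (mul_ne_zero h3 h3)]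
        ring
      · exact h)
  refine ⟨c / 2, by positivity, ?_⟩
  have hlogN : Filter.Tendsto (fun n : ℕ => Real.log n) Filter.atTop Filter.atTop :=
    Real.tendsto_log_atTop.comp tendsto_natCast_atTop_atTop
  have hratio : ∀ᶠ l : ℝ in Filter.atTop, 2 / c * Real.log l ^ 4 ≤ l ^ 3 := by
    have h1 := (isLittleO_log_rpow_atTop (show (0 : ℝ) < 1 / 4 by norm_num)).bound
      (show (0 : ℝ) < 1 by norm_num)
    filter_upwards [h1, Filter.eventually_ge_atTop 1, Filter.eventually_ge_atTop (2 / c)]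
      with l h2 h3 h4
    have h5 : 0 ≤ Real.log l := Real.log_nonneg h3
    rw [Real.norm_eq_abs, Real.norm_eq_abs, abs_of_nonneg h5, one_mul,
      abs_of_nonneg (by positivity)] at h2
    have h6 : Real.log l ^ 4 ≤ l := by
      calc Real.log l ^ 4 ≤ (l ^ (1 / 4 : ℝ)) ^ 4 := pow_le_pow_left₀ h5 h2 4
        _ = l := by
            rw [← Real.rpow_natCast, ← Real.rpow_mul (by linarith)]
            norm_num
    calc 2 / c * Real.log l ^ 4 ≤ l * l :=
          mul_le_mul h4 h6 (by positivity) (by linarith)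
      _ ≤ l ^ 3 := by nlinarith [mul_nonneg (by linarith : (0 : ℝ) ≤ l) (by linarith : (0 : ℝ) ≤ l)]
  filter_upwards [hev, hlogN.eventually_ge_atTop 3, hlogN.eventually hratio] with n h1 hl3 hr
  set l := Real.log n with hl
  have hll : 0 < Real.log l := Real.log_pos (by linarith)
  have hbig : 1 ≤ c / 2 * (l ^ 3 / Real.log l ^ 4) := by
    have h3 : 2 / c ≤ l ^ 3 / Real.log l ^ 4 := by
      rw [le_div_iff₀ (by positivity)]
      exact hr
    have h4 := mul_le_mul_of_nonneg_left h3 (by positivity : 0 ≤ c / 2)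
    have h5 : c / 2 * (2 / c) = 1 := by field_simp
    linarith
  have hcard : Pool.Agent.K7.H59.DC.cnt (eps b α) n ≤ chg b α n + 1 := by
    classical
    unfold Pool.Agent.K7.H59.DC.cnt chg
    refine le_trans (card_le_card (t := insert 0 ((Finset.Icc 1 n).filter
      (fun k => dgb b α k ≠ dgb b α (k + 1)))) ?_) (card_insert_le _ _)
    intro k hk
    rw [mem_filter, mem_range] at hk
    rw [mem_insert, mem_filter, mem_Icc]
    by_cases h0 : k = 0
    · exact Or.inl h0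
    · right
      exact ⟨⟨by omega, by omega⟩, eps_ne (by omega) hk.2⟩
  have hcard' : (Pool.Agent.K7.H59.DC.cnt (eps b α) n : ℝ) ≤ (chg b α n : ℝ) + 1 := by
    exact_mod_cast hcard
  linarith

/-- Words of digits in almost all multiples of `√2`. -/
theorem words_almost {b : ℕ} (hb : 2 ≤ b) (l W : ℕ) (hW : W < b ^ l) (ε : ℝ) (hε : 0 < ε) :
    ∃ c : ℝ, 0 < c ∧ ∃ M₀ n₀ : ℕ, ∀ M n : ℕ, M₀ ≤ M → n₀ ≤ n →
      (((range M).filter (fun m : ℕ => (occW b l W (m * Real.sqrt 2) n : ℝ) <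
        c * (Real.log n ^ 3 / Real.log (Real.log n) ^ 4))).card : ℝ) ≤ ε * M := by
  classical
  set B := b ^ l with hB
  have hB1 : 1 ≤ B := Nat.one_le_pow _ _ (by omega)
  have hBR : (1 : ℝ) ≤ B := by exact_mod_cast hB1
  -- choice of `r`
  obtain ⟨r, hr⟩ : ∃ r : ℕ, ((B - 1 : ℕ) : ℝ) ^ r * 24 ≤ ε * (B : ℝ) ^ r := by
    have h1 : ((B - 1 : ℕ) : ℝ) / B < 1 := by
      rw [div_lt_one (by linarith)]
      have : B - 1 < B := by omega
      exact_mod_cast this
    obtain ⟨r, hr⟩ := exists_pow_lt_of_lt_one (show (0 : ℝ) < ε / 24 by positivity) h1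
    refine ⟨r, ?_⟩
    rw [div_pow, div_lt_iff₀ (by positivity)] at hr
    linarith
  obtain ⟨Q, hQdef⟩ : ∃ Q : ℕ, Q = (B ^ r).factorial := ⟨_, rfl⟩
  have hQ0 : 0 < Q := by rw [hQdef]; exact Nat.factorial_pos _
  have hQ : ∀ q, 1 ≤ q → q ≤ B ^ r → q ∣ Q := by
    intro q h1 h2
    rw [hQdef]
    exact Nat.dvd_factorial (by omega) h2
  obtain ⟨c₁, hc₁, hev⟩ := changes hb (Q := Q) hQ0
  set Lf : ℕ → ℝ := fun n => Real.log n ^ 3 / Real.log (Real.log n) ^ 4 with hLf
  -- growth of `Lf`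
  have hgrow : ∀ᶠ n : ℕ in Filter.atTop, 4 * ((r : ℝ) * (r * l)) + 1 ≤ c₁ * Lf n := by
    have hlogN : Filter.Tendsto (fun n : ℕ => Real.log n) Filter.atTop Filter.atTop :=
      Real.tendsto_log_atTop.comp tendsto_natCast_atTop_atTop
    have hratio : ∀ᶠ u : ℝ in Filter.atTop,
        (4 * ((r : ℝ) * (r * l)) + 1) / c₁ * Real.log u ^ 4 ≤ u ^ 3 := by
      have h1 := (isLittleO_log_rpow_atTop (show (0 : ℝ) < 1 / 4 by norm_num)).bound
        (show (0 : ℝ) < 1 by norm_num)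
      filter_upwards [h1, Filter.eventually_ge_atTop 1,
        Filter.eventually_ge_atTop ((4 * ((r : ℝ) * (r * l)) + 1) / c₁)] with u h2 h3 h4
      have h5 : 0 ≤ Real.log u := Real.log_nonneg h3
      rw [Real.norm_eq_abs, Real.norm_eq_abs, abs_of_nonneg h5, one_mul,
        abs_of_nonneg (by positivity)] at h2
      have h6 : Real.log u ^ 4 ≤ u := by
        calc Real.log u ^ 4 ≤ (u ^ (1 / 4 : ℝ)) ^ 4 := pow_le_pow_left₀ h5 h2 4
          _ = u := by
              rw [← Real.rpow_natCast, ← Real.rpow_mul (by linarith)]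
              norm_num
      calc (4 * ((r : ℝ) * (r * l)) + 1) / c₁ * Real.log u ^ 4 ≤ u * u :=
            mul_le_mul h4 h6 (by positivity) (by linarith)
        _ ≤ u ^ 3 := by
            nlinarith [mul_nonneg (by linarith : (0 : ℝ) ≤ u) (by linarith : (0 : ℝ) ≤ u)]
    filter_upwards [hlogN.eventually_ge_atTop 3, hlogN.eventually hratio] with n hl3 h1
    have hll : 0 < Real.log (Real.log n) := Real.log_pos (by linarith)
    rw [div_mul_eq_mul_div, div_le_iff₀ hc₁] at h1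
    show 4 * ((r : ℝ) * (r * l)) + 1 ≤ c₁ * (Real.log n ^ 3 / Real.log (Real.log n) ^ 4)
    rw [mul_div_assoc', le_div_iff₀ (by positivity)]
    linarith
  obtain ⟨n₀, hn₀⟩ := Filter.eventually_atTop.1 (hev.and hgrow)
  refine ⟨c₁ / (8 * (r + 1)), by positivity, B ^ r + b ^ 2 * Q + 1, n₀, ?_⟩
  intro M n hM hn
  obtain ⟨hch, hgr⟩ := hn₀ n hn
  set S := (range M).filter (fun m : ℕ => (occW b l W (m * Real.sqrt 2) n : ℝ) <
        c₁ / (8 * (r + 1)) * (Real.log n ^ 3 / Real.log (Real.log n) ^ 4)) with hS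
  by_contra hcon
  push Not at hcon
  have hMpos : 0 < M := by omega
  have hMR : (0 : ℝ) < M := by exact_mod_cast hMpos
  have hcount := counting_words (ξ := Real.sqrt 2) b l W r M Q n hb hW (by rw [← hB]; omega)
    (by have : b ^ 2 * Q ≤ M := by omega
        omega) hQ0 hQ S (filter_subset _ _)
    (c₁ / (8 * (r + 1)) * Lf n) (fun m hm => by
      rw [hS, mem_filter] at hm
      exact hm.2.le)
  rw [← hB] at hcount
  set x : ℝ := (chg b (Q * Real.sqrt 2) n : ℝ) with hx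
  set s : ℝ := (S.card : ℝ) with hs
  have hspos : 0 < s := lt_of_le_of_lt (by positivity) hcon
  have hN : (0 : ℝ) < ((B ^ r : ℕ) : ℝ) := by
    have : 0 < B ^ r := Nat.pow_pos (by omega)
    exact_mod_cast this
  have hx1 : c₁ * Lf n ≤ x := hch
  have hx0 : 0 ≤ x := Nat.cast_nonneg _
  -- the exceptional part
  have h1 : 12 * (M : ℝ) * (((B - 1) ^ r : ℕ) : ℝ) ≤ ((B ^ r : ℕ) : ℝ) * s / 2 := by
    have h2 : ε * (B : ℝ) ^ r * M ≤ s * (B : ℝ) ^ r := by
      have := mul_le_mul_of_nonneg_right hcon.le (show (0 : ℝ) ≤ (B : ℝ) ^ r by positivity)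
      linarith
    have h3 := mul_le_mul_of_nonneg_right hr hMR.le
    have e1 : (((B - 1) ^ r : ℕ) : ℝ) = ((B - 1 : ℕ) : ℝ) ^ r := by push_cast; rfl
    have e2 : ((B ^ r : ℕ) : ℝ) = (B : ℝ) ^ r := by push_cast; rfl
    rw [e1, e2]
    linarith
  have h2 : 12 * (M : ℝ) * (((B - 1) ^ r : ℕ) : ℝ) * x ≤ ((B ^ r : ℕ) : ℝ) * s / 2 * x :=
    mul_le_mul_of_nonneg_right h1 hx0
  have h3 : (((B ^ r : ℕ) : ℝ) * s) * x ≤ (((B ^ r : ℕ) : ℝ) * s) *
      (2 * (r * (c₁ / (8 * (r + 1)) * Lf n + r * l))) := by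
    nlinarith
  have h4 : x ≤ 2 * (r * (c₁ / (8 * (r + 1)) * Lf n + r * l)) :=
    le_of_mul_le_mul_left h3 (by positivity)
  have hLn : 0 < c₁ * Lf n := by
    have : (0 : ℝ) ≤ 4 * ((r : ℝ) * (r * l)) := by positivity
    linarith
  have h5 : (r : ℝ) * (c₁ / (8 * (r + 1)) * Lf n) ≤ c₁ * Lf n / 8 := by
    have h6 : (r : ℝ) * (c₁ / (8 * (r + 1)) * Lf n) = (c₁ * Lf n / 8) * (r / (r + 1)) := by
      field_simp
    rw [h6]
    have h7 : (r : ℝ) / (r + 1) ≤ 1 := by
      rw [div_le_one (by positivity)]; linarith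
    calc (c₁ * Lf n / 8) * (r / (r + 1)) ≤ (c₁ * Lf n / 8) * 1 :=
          mul_le_mul_of_nonneg_left h7 (by linarith)
      _ = _ := mul_one _
  nlinarith

end Pool.Agent.K7.H63.MR
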