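import Pool.Agent.K7.H63.MR.Words
import Pool.Agent.TH842.A3.Final
import Pool.Agent.TH842.A3.Out5

/-!
Changes of digits of the multiples of a real algebraic irrational number in base `b`.
-/

set_option autoImplicit false

open Finset

namespace Pool.Agent.K7.H63.MR

theorem changes_alg {b : ℕ} (hb : 2 ≤ b) {α : ℝ} (halg : IsAlgebraic ℚ α) (hirr : Irrational α)
    {Q : ℕ} (hQ : 1 ≤ Q) :
    ∃ c : ℝ, 0 < c ∧ ∀ᶠ n : ℕ in Filter.atTop,
      c * (Real.log n ^ 3 / Real.log (Real.log n) ^ 5) ≤ (chg b (Q * α) n : ℝ) := by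
  have hQz : (Q : ℤ) ≠ 0 := by exact_mod_cast (by omega : Q ≠ 0)
  obtain ⟨c, hc, N0, h⟩ := Pool.Agent.TH842.A3.Out5.relations5 Pool.Agent.TH842.A3.mg5
    (fun _ : Fin 1 => (Q : ℝ) * α)
    (fun _ => (isAlgebraic_natCast (R := ℚ) (A := ℝ) Q).mul halg)
    (by
      intro z hz
      have h1 : z 0 ≠ 0 := by
        intro h
        apply hz
        funext i
        rw [Subsingleton.elim i 0, h]
        rfl
      have h2 : ∑ i, (z i : ℝ) * ((Q : ℝ) * α) = ((z 0 * Q : ℤ) : ℝ) * α := by
        rw [Fin.sum_univ_one]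
        push_cast
        ring
      rw [h2]
      exact hirr.intCast_mul (mul_ne_zero h1 hQz))
    b hb 1 (fun _ j => if j = 0 then 1 else -1) ⟨0, 0, by omega, by simp⟩ 0
  refine ⟨c, hc, ?_⟩
  filter_upwards [Filter.eventually_ge_atTop N0] with n hn
  have h1 := h n hn
  rw [mul_div_assoc']
  refine h1.trans (le_of_eq ?_)
  unfold chg
  congr 2
  refine filter_congr fun k _ => ?_
  have h2 : ∀ k, Pool.Agent.H393R2.DC.digit b ((Q : ℝ) * α) k = dgb b (Q * α) k := by
    intro k
    unfold Pool.Agent.H393R2.DC.digit dgb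
    rw [mul_comm]
  rw [Fin.sum_univ_one, sum_range_succ, sum_range_succ, sum_range_zero, h2, h2]
  simp only [if_true, if_neg (one_ne_zero), Nat.add_zero]
  rw [← sub_ne_zero (a := dgb b (Q * α) k)]
  constructor <;> intro h3 h4 <;> apply h3 <;> linarith

lemma tend35 : Filter.Tendsto (fun n : ℕ => Real.log n ^ 3 / Real.log (Real.log n) ^ 5)
    Filter.atTop Filter.atTop := by
  have h1 : Filter.Tendsto (fun x : ℝ => Real.log x ^ 5 / x ^ 3) Filter.atTop (nhds 0) := by
    have := isLittleO_log_rpow_atTop (show (0 : ℝ) < 3 / 5 by norm_num)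
    have h2 := this.tendsto_div_nhds_zero
    have h3 := h2.pow 5
    rw [zero_pow (by norm_num)] at h3
    refine h3.congr' ?_
    filter_upwards [Filter.eventually_gt_atTop (0 : ℝ)] with x hx
    rw [div_pow, ← Real.rpow_natCast (x ^ (3 / 5 : ℝ)) 5, ← Real.rpow_mul hx.le]
    norm_num
  have h2 : Filter.Tendsto (fun x : ℝ => x ^ 3 / Real.log x ^ 5) Filter.atTop Filter.atTop := by
    have h3 : Filter.Tendsto (fun x : ℝ => Real.log x ^ 5 / x ^ 3) Filter.atTop
        (nhdsWithin 0 (Set.Ioi 0)) := by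
      rw [tendsto_nhdsWithin_iff]
      refine ⟨h1, ?_⟩
      filter_upwards [Filter.eventually_gt_atTop (1 : ℝ)] with x hx
      have := Real.log_pos hx
      show (0 : ℝ) < _
      positivity
    refine (h3.inv_tendsto_nhdsGT_zero).congr fun x => ?_
    simp
  exact h2.comp (Real.tendsto_log_atTop.comp (tendsto_natCast_atTop_atTop (R := ℝ)))

end Pool.Agent.K7.H63.MR
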