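import Pool.Agent.R474.Sqrt

/-!
The covering inequality for the ones among the binary digits of an irrational square root of an
integer, of either sign.
-/

set_option autoImplicit false

open Finset

namespace Pool.Agent.K7.H63.MR

open Pool.Agent.R474

variable {a : ℕ → ℕ} {y : ℝ}

lemma dead_le' (ha : ∀ k, a k ≤ 1) (ha0 : a 0 = 0) (I : ℕ → ℤ) (e : ℤ)
    (hI : ∀ R, I (R + 1) = 2 * I R - rep a (R + 1) + e * a (R + 1))
    (g : ℕ) (hlow : ∀ R, -(2 : ℤ) ^ g < I R)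
    (G : ℕ) (hgap : ∀ l : ℕ, ∃ b, a b = 1 ∧ l < b ∧ b ≤ 2 * l + G) :
    ∀ n : ℕ, (dead I n).card ≤
      (live I n).card + (G + g) * (∑ k ∈ range (n + 1), a k + 1) := by
  intro n
  induction n using Nat.strong_induction_on with
  | _ n ih =>
  rcases Nat.eq_zero_or_pos n with h0 | hn
  · subst h0
    simp [dead]
  -- the last one up to `n`
  set S := (range (n + 1)).filter (fun t => a t = 1) with hS
  by_cases hSne : S.Nonempty
  swap
  · rw [not_nonempty_iff_eq_empty] at hSne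
    obtain ⟨b, hb, hb1, hb2⟩ := hgap 0
    have hbn : n < b := by
      by_contra hc
      push Not at hc
      have : b ∈ S := by rw [hS, mem_filter, mem_range]; exact ⟨by omega, hb⟩
      rw [hSne] at this
      exact absurd this (notMem_empty _)
    have h1 : (dead I n).card ≤ n := by
      refine (card_filter_le _ _).trans ?_
      rw [Nat.card_Icc]; omega
    have h2 : G + g ≤ (G + g) * (∑ k ∈ range (n + 1), a k + 1) := Nat.le_mul_of_pos_right _ (by omega)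
    omega
  set c := S.max' hSne with hc
  have hcS : c ∈ S := S.max'_mem hSne
  rw [hS, mem_filter, mem_range] at hcS
  obtain ⟨hcn, hac⟩ := hcS
  have hc1 : 1 ≤ c := by
    rcases Nat.eq_zero_or_pos c with h | h
    · rw [h, ha0] at hac; omega
    · exact h
  have hzero : ∀ t, c < t → t ≤ n → a t = 0 := by
    intro t ht1 ht2
    by_contra hne
    have h1 : a t = 1 := by have := ha t; omega
    have : t ∈ S := by rw [hS, mem_filter, mem_range]; exact ⟨by omega, h1⟩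
    have := S.le_max' t this
    omega
  have ihc := ih (c - 1) (by omega)
  have hN : ∑ k ∈ range (c - 1 + 1), a k + 1 ≤ ∑ k ∈ range (n + 1), a k := by
    have e1 : c - 1 + 1 = c := by omega
    rw [e1]
    calc ∑ k ∈ range c, a k + 1 = ∑ k ∈ range (c + 1), a k := by rw [sum_range_succ, hac]
      _ ≤ ∑ k ∈ range (n + 1), a k :=
        sum_le_sum_of_subset_of_nonneg (range_subset_range.2 (by omega)) fun _ _ _ => Nat.zero_le _
  have hN' : (G + g) * (∑ k ∈ range (c - 1 + 1), a k + 1) ≤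
      (G + g) * ∑ k ∈ range (n + 1), a k := Nat.mul_le_mul_left _ hN
  have hsplit : Icc 1 n = Icc 1 (c - 1) ∪ Icc c n := by
    ext t; simp only [mem_Icc, mem_union]; omega
  have hdisj : Disjoint (Icc 1 (c - 1)) (Icc c n) := by
    rw [disjoint_left]; intro t; simp only [mem_Icc]; omega
  have hD : (dead I n).card = (dead I (c - 1)).card + ((Icc c n).filter (fun R => I R ≤ 0)).card := by
    unfold dead
    rw [hsplit, filter_union, card_union_of_disjoint (disjoint_filter_filter hdisj)]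
  have hL : (live I n).card = (live I (c - 1)).card + ((Icc c n).filter (fun R => 1 ≤ I R)).card := by
    unfold live
    rw [hsplit, filter_union, card_union_of_disjoint (disjoint_filter_filter hdisj)]
  by_cases hex : ∃ t, c ≤ t ∧ t ≤ n ∧ I t ≤ 0
  swap
  · have h1 : (Icc c n).filter (fun R => I R ≤ 0) = ∅ := by
      rw [filter_eq_empty_iff]
      intro t ht h2
      rw [mem_Icc] at ht
      exact hex ⟨t, ht.1, ht.2, h2⟩
    rw [h1, card_empty] at hD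
    rw [Nat.mul_add]
    omega
  classical
  set ρ := Nat.find hex with hρ
  obtain ⟨hρ1, hρ2, hρ3⟩ := Nat.find_spec hex
  have hmin : ∀ t, c ≤ t → t < ρ → 1 ≤ I t := by
    intro t ht1 ht2
    have := Nat.find_min hex ht2
    push Not at this
    have := this ht1 (by omega)
    omega
  have hneg : ∀ j, ρ + j ≤ n → I (ρ + j) ≤ 0 := by
    intro j
    induction j with
    | zero => intro _; simpa using hρ3
    | succ j ihj =>
      intro hj
      have h1 := hI (ρ + j)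
      have h2 : a (ρ + j + 1) = 0 := hzero _ (by omega) (by omega)
      have h3 := ihj (by omega)
      rw [h2] at h1
      have h4 : I (ρ + (j + 1)) = I (ρ + j + 1) := rfl
      rw [h4, h1]
      push_cast
      have : (0 : ℤ) ≤ rep a (ρ + j + 1) := Int.natCast_nonneg _
      omega
  have hrep : ∀ t, ρ < t → t + g ≤ n → rep a t = 0 := by
    intro t ht1 ht2
    by_contra hne
    have h0 : (1 : ℤ) ≤ rep a t := by
      have : 1 ≤ rep a t := Nat.one_le_iff_ne_zero.2 hne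
      exact_mod_cast this
    obtain ⟨s, rfl⟩ : ∃ s, t = s + 1 := ⟨t - 1, by omega⟩
    have hdown : ∀ i, i ≤ g → I (s + 1 + i) ≤ -(2 : ℤ) ^ i := by
      intro i
      induction i with
      | zero =>
        intro _
        have h1 := hI s
        rw [hzero (s + 1) (by omega) (by omega)] at h1
        have h4 : I s ≤ 0 := by
          have := hneg (s - ρ) (by omega)
          rwa [show ρ + (s - ρ) = s by omega] at this
        push_cast at h1
        simp only [Nat.add_zero, pow_zero]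
        omega
      | succ i ihi =>
        intro hi
        have h1 := hI (s + 1 + i)
        rw [hzero (s + 1 + i + 1) (by omega) (by omega)] at h1
        have h2 := ihi (by omega)
        have h3 : I (s + 1 + (i + 1)) = I (s + 1 + i + 1) := rfl
        have h5 : (0 : ℤ) ≤ rep a (s + 1 + i + 1) := Int.natCast_nonneg _
        rw [h3, h1, pow_succ]
        push_cast
        linarith
    have h7 := hlow (s + 1 + g)
    have h8 := hdown g le_rfl
    omega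
  have hlen : n + 1 - ρ ≤ (ρ - c) + (G + g) := by
    obtain ⟨b, hb, hb1, hb2⟩ := hgap (ρ - c)
    by_contra hcon
    push Not at hcon
    have h1 := hrep (c + b) (by omega) (by omega)
    have h2 : 1 ≤ rep a (c + b) := by
      unfold rep
      calc 1 = a c * a (c + b - c) := by rw [hac, show c + b - c = b by omega, hb]
        _ ≤ ∑ i ∈ range (c + b + 1), a i * a (c + b - i) :=
          single_le_sum (f := fun i => a i * a (c + b - i)) (fun _ _ => Nat.zero_le _)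
            (mem_range.2 (by omega))
    omega
  have hd2 : ((Icc c n).filter (fun R => I R ≤ 0)).card ≤ n + 1 - ρ := by
    calc ((Icc c n).filter (fun R => I R ≤ 0)).card ≤ (Icc ρ n).card := by
          refine card_le_card fun t ht => ?_
          rw [mem_filter, mem_Icc] at ht
          rw [mem_Icc]
          refine ⟨?_, ht.1.2⟩
          by_contra hlt
          push Not at hlt
          have := hmin t ht.1.1 hlt
          omega
      _ = n + 1 - ρ := Nat.card_Icc _ _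
  have hl2 : ρ - c ≤ ((Icc c n).filter (fun R => 1 ≤ I R)).card := by
    calc ρ - c = (Ico c ρ).card := (Nat.card_Ico _ _).symm
      _ ≤ _ := by
          refine card_le_card fun t ht => ?_
          rw [mem_Ico] at ht
          rw [mem_filter, mem_Icc]
          exact ⟨⟨ht.1, by omega⟩, hmin t ht.1 ht.2⟩
  rw [Nat.mul_add, Nat.mul_one]
  omega

/-- the numerical inequality -/
lemma numeric' (n K W A G : ℕ) (hn : 1 ≤ n) (hK : 1 ≤ K) (hKW : K ≤ W) (L : ℝ)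
    (hL : ∀ M : ℕ, L ≤ (2 * K + 1) * W + (K ^ 2 + K + 1) * M + ((W : ℝ) ^ 2 + A * n + 8) / 2 ^ M)
    (hnL : (n : ℝ) ≤ 2 * L + G * (W + 1)) : n ≤ (50 * (A + 9) + 3 * G) * (K * W) := by
  by_contra hcon
  push Not at hcon
  have hnR : (1 : ℝ) ≤ n := by exact_mod_cast hn
  have hn0 : (0 : ℝ) < n := by linarith
  have hKR : (1 : ℝ) ≤ K := by exact_mod_cast hK
  have hKWR : (K : ℝ) ≤ W := by exact_mod_cast hKW
  have hA0 : (0 : ℝ) ≤ A := Nat.cast_nonneg _
  have hG0 : (0 : ℝ) ≤ G := Nat.cast_nonneg _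
  have hconR : (50 * ((A : ℝ) + 9) + 3 * G) * ((K : ℝ) * W) < n := by exact_mod_cast hcon
  have hex : ∃ M : ℕ, 8 * ((W : ℝ) ^ 2 + (A + 8) * n) ≤ 2 ^ M * n := by
    obtain ⟨M, hM⟩ := pow_unbounded_of_one_lt (8 * ((W : ℝ) ^ 2 + (A + 8) * n))
      (by norm_num : (1 : ℝ) < 2)
    refine ⟨M, hM.le.trans ?_⟩
    have : (0 : ℝ) < 2 ^ M := by positivity
    nlinarith
  classical
  set M := Nat.find hex with hM
  have hM1 := Nat.find_spec hex
  rw [← hM] at hM1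
  have hMpos : M ≠ 0 := by
    intro h
    rw [h] at hM1
    have : (0 : ℝ) ≤ (W : ℝ) ^ 2 := by positivity
    have : (0 : ℝ) ≤ A * n := by positivity
    norm_num at hM1
    linarith
  obtain ⟨M', hM'⟩ := Nat.exists_eq_succ_of_ne_zero hMpos
  have hM2 : ¬ (8 * ((W : ℝ) ^ 2 + (A + 8) * n) ≤ 2 ^ M' * n) :=
    Nat.find_min hex (by rw [← hM]; omega)
  push Not at hM2
  have hMsq : (M : ℝ) ^ 2 ≤ 9 / 8 * 2 ^ M := by
    have := sq_le_two_pow M
    have h2 : (8 : ℝ) * (M : ℝ) ^ 2 ≤ 9 * 2 ^ M := by exact_mod_cast this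
    linarith
  have h2M : (2 : ℝ) ^ M = 2 * 2 ^ M' := by rw [hM', pow_succ]; ring
  have hMn : (M : ℝ) ^ 2 * n ≤ 18 * ((W : ℝ) ^ 2 + (A + 8) * n) := by
    rw [h2M] at hMsq
    have h3 : (M : ℝ) ^ 2 * n ≤ 9 / 8 * (2 * 2 ^ M') * n := mul_le_mul_of_nonneg_right hMsq hn0.le
    have h4 : 9 / 8 * (2 * (2 : ℝ) ^ M') * n = 9 / 4 * (2 ^ M' * n) := by ring
    rw [h4] at h3
    linarith
  have hM0 : (0 : ℝ) ≤ M := Nat.cast_nonneg _
  set X : ℝ := (K : ℝ) * W with hX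
  have hX0 : 1 ≤ X := by nlinarith
  have hKX : (K : ℝ) ^ 2 ≤ X := by nlinarith
  have hXn : X ≤ n := by nlinarith
  have hKn : (K : ℝ) ^ 2 ≤ n := hKX.trans hXn
  have hkey : ((K : ℝ) ^ 2 * M) ^ 2 * n ≤ 18 * (A + 9) * X ^ 2 * n := by
    have h1 : ((K : ℝ) ^ 2 * M) ^ 2 * n = (K : ℝ) ^ 4 * ((M : ℝ) ^ 2 * n) := by ring
    rw [h1]
    have h2 : (K : ℝ) ^ 4 * ((M : ℝ) ^ 2 * n) ≤ (K : ℝ) ^ 4 * (18 * ((W : ℝ) ^ 2 + (A + 8) * n)) :=
      mul_le_mul_of_nonneg_left hMn (by positivity)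
    have h3 : (K : ℝ) ^ 4 * (18 * ((W : ℝ) ^ 2 + (A + 8) * n)) =
        18 * ((K : ℝ) ^ 2 * X ^ 2) + 18 * ((A + 8) * ((K ^ 2) ^ 2 * n)) := by rw [hX]; ring
    rw [h3] at h2
    have h4 : (K : ℝ) ^ 2 * X ^ 2 ≤ n * X ^ 2 := mul_le_mul_of_nonneg_right hKn (by positivity)
    have h6 : ((K : ℝ) ^ 2) ^ 2 ≤ X ^ 2 := pow_le_pow_left₀ (by positivity) hKX 2
    have h5 : ((K : ℝ) ^ 2) ^ 2 * n ≤ X ^ 2 * n := mul_le_mul_of_nonneg_right h6 hn0.le
    have h7 : ((A : ℝ) + 8) * (((K : ℝ) ^ 2) ^ 2 * n) ≤ (A + 8) * (X ^ 2 * n) :=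
      mul_le_mul_of_nonneg_left h5 (by positivity)
    nlinarith
  have hkey2 : (K : ℝ) ^ 2 * M ≤ 5 * (A + 9) * X := by
    have h1 : ((K : ℝ) ^ 2 * M) ^ 2 ≤ 18 * (A + 9) * X ^ 2 := le_of_mul_le_mul_right hkey hn0
    have h3 : 0 ≤ X ^ 2 := by positivity
    have h4 : 18 * ((A : ℝ) + 9) ≤ (5 * (A + 9)) ^ 2 := by nlinarith
    have h2 : ((K : ℝ) ^ 2 * M) ^ 2 ≤ (5 * (A + 9) * X) ^ 2 := by
      calc ((K : ℝ) ^ 2 * M) ^ 2 ≤ 18 * (A + 9) * X ^ 2 := h1
        _ ≤ (5 * (A + 9)) ^ 2 * X ^ 2 := mul_le_mul_of_nonneg_right h4 h3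
        _ = _ := by ring
    exact (pow_le_pow_iff_left₀ (by positivity) (by positivity) (by norm_num)).1 h2
  have hL1 := hL M
  have hlast : ((W : ℝ) ^ 2 + A * n + 8) / 2 ^ M ≤ n / 8 := by
    rw [div_le_iff₀ (by positivity)]
    have : (W : ℝ) ^ 2 + A * n + 8 ≤ (W : ℝ) ^ 2 + (A + 8) * n := by nlinarith
    linarith
  have hmid : ((K : ℝ) ^ 2 + K + 1) * M ≤ 3 * ((K : ℝ) ^ 2 * M) := by
    have h1 : (K : ℝ) ≤ K ^ 2 := by nlinarith
    have h2 : (K : ℝ) ^ 2 + K + 1 ≤ 3 * (K : ℝ) ^ 2 := by linarith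
    calc ((K : ℝ) ^ 2 + K + 1) * M ≤ (3 * (K : ℝ) ^ 2) * M := mul_le_mul_of_nonneg_right h2 hM0
      _ = 3 * ((K : ℝ) ^ 2 * M) := by ring
  have hW1 : (W : ℝ) ≤ X := by nlinarith
  have h2K : (2 * (K : ℝ) + 1) * W ≤ 3 * X := by
    have : (2 * (K : ℝ) + 1) * W = 2 * X + W := by rw [hX]; ring
    linarith
  have hGW : (G : ℝ) * (W + 1) ≤ 2 * G * X := by nlinarith
  have hG0X : 0 ≤ (G : ℝ) * X := by positivity
  have hA0X : 0 ≤ (A : ℝ) * X := by positivity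
  nlinarith

section dig

variable {α : ℝ}

/-- the digits of `α` -/
noncomputable def dig (α : ℝ) (k : ℕ) : ℕ := if k = 0 then 0 else (⌊α * 2 ^ k⌋ % 2).toNat

lemma dig_zero (α : ℝ) : dig α 0 = 0 := by simp [dig]

lemma dig_le (α : ℝ) (k : ℕ) : dig α k ≤ 1 := by
  unfold dig; split_ifs <;> omega

lemma floor_succ (α : ℝ) (R : ℕ) :
    ⌊α * 2 ^ (R + 1)⌋ = 2 * ⌊α * 2 ^ R⌋ + dig α (R + 1) := by
  have h1 : ⌊α * 2 ^ (R + 1)⌋ / 2 = ⌊α * 2 ^ R⌋ := by
    have h2 : α * 2 ^ R = α * 2 ^ (R + 1) / (2 : ℕ) := by rw [pow_succ]; push_cast; ring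
    rw [h2, Int.floor_div_natCast]
    rfl
  unfold dig
  rw [if_neg (Nat.succ_ne_zero R)]
  omega

lemma V_dig (α : ℝ) (R : ℕ) : (V (dig α) R : ℤ) = ⌊α * 2 ^ R⌋ - 2 ^ R * ⌊α⌋ := by
  induction R with
  | zero => simp [V, dig]
  | succ R ih =>
    rw [V, floor_succ]
    push_cast
    rw [ih, pow_succ]
    ring

lemma irr_mul (hα : Irrational α) (R : ℕ) : Irrational (α * 2 ^ R) := by
  have : Irrational (α * ((2 ^ R : ℕ) : ℝ)) := hα.mul_natCast (by positivity)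
  rwa [Nat.cast_pow, Nat.cast_ofNat] at this

lemma exp_dig (hα : Irrational α) : Exp (dig α) (Int.fract α) where
  le_one := dig_le α
  pos := by
    intro R
    have h1 : ((V (dig α) R : ℕ) : ℝ) = ⌊α * 2 ^ R⌋ - 2 ^ R * ⌊α⌋ := by exact_mod_cast V_dig α R
    have h2 := Int.floor_le (α * 2 ^ R)
    have h3 : (⌊α * 2 ^ R⌋ : ℝ) ≠ α * 2 ^ R := fun h =>
      irr_mul hα R ⟨(⌊α * 2 ^ R⌋ : ℚ), by push_cast; exact h⟩
    have h4 := lt_of_le_of_ne h2 h3
    rw [h1, Int.fract]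
    nlinarith
  lt := by
    intro R
    have h1 : ((V (dig α) R : ℕ) : ℝ) = ⌊α * 2 ^ R⌋ - 2 ^ R * ⌊α⌋ := by exact_mod_cast V_dig α R
    have h2 := Int.lt_floor_add_one (α * 2 ^ R)
    rw [h1, Int.fract]
    nlinarith

/-- the integer sequence -/
noncomputable def II (α : ℝ) (D : ℤ) (R : ℕ) : ℤ :=
  2 ^ R * (D - ⌊α⌋ ^ 2) - P (dig α) R - 2 * ⌊α⌋ * V (dig α) R

lemma II_succ (α : ℝ) (D : ℤ) (R : ℕ) :
    II α D (R + 1) = 2 * II α D R - rep (dig α) (R + 1) + (-2 * ⌊α⌋) * dig α (R + 1) := by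
  unfold II
  rw [P, V]
  push_cast
  ring

lemma II_eq {D : ℤ} (hD : α ^ 2 = D) (R : ℕ) : (II α D R : ℝ) = T (dig α) (Int.fract α) R +
    2 * ⌊α⌋ * (2 ^ R * Int.fract α - V (dig α) R) := by
  unfold II T Int.fract
  push_cast
  linear_combination (-(2 : ℝ) ^ R) * hD

lemma II_le (hα : Irrational α) {D : ℤ} (hD : α ^ 2 = D) (R : ℕ) :
    (II α D R : ℝ) ≤ T (dig α) (Int.fract α) R + 2 * (⌊α⌋.natAbs : ℕ) := by
  rw [II_eq hD]
  have h1 := (exp_dig hα).pos R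
  have h2 := (exp_dig hα).lt R
  set f := 2 ^ R * Int.fract α - V (dig α) R with hf
  have h3 : 0 < f := by linarith
  have h4 : f < 1 := by linarith
  have h5 : (⌊α⌋ : ℝ) ≤ ((⌊α⌋.natAbs : ℕ) : ℝ) := by
    have h7 : ⌊α⌋ ≤ ((⌊α⌋.natAbs : ℕ) : ℤ) := Int.le_natAbs
    have h8 : ((⌊α⌋ : ℤ) : ℝ) ≤ (((⌊α⌋.natAbs : ℕ) : ℤ) : ℝ) := Int.cast_le.2 h7
    rwa [Int.cast_natCast] at h8
  have h6 : (0 : ℝ) ≤ (⌊α⌋.natAbs : ℕ) := Nat.cast_nonneg _
  nlinarith

lemma II_low (hα : Irrational α) {D : ℤ} (hD : α ^ 2 = D) (g : ℕ) (hg : 2 * ⌊α⌋.natAbs ≤ 2 ^ g)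
    (R : ℕ) : -(2 : ℤ) ^ g < II α D R := by
  have h0 := T_pos (exp_dig hα) R
  have h1 := (exp_dig hα).pos R
  have h2 := (exp_dig hα).lt R
  have h3 := II_eq hD R
  set f := 2 ^ R * Int.fract α - V (dig α) R with hf
  have h4 : 0 < f := by linarith
  have h5 : f < 1 := by linarith
  have h6 : -((⌊α⌋.natAbs : ℕ) : ℝ) ≤ (⌊α⌋ : ℝ) := by
    have : -((⌊α⌋.natAbs : ℕ) : ℤ) ≤ ⌊α⌋ := by omega
    exact_mod_cast this
  have h7 : (0 : ℝ) ≤ (⌊α⌋.natAbs : ℕ) := Nat.cast_nonneg _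
  have h8 : 2 * ((⌊α⌋.natAbs : ℕ) : ℝ) ≤ 2 ^ g := by exact_mod_cast hg
  have h9 : -(2 : ℝ) ^ g < II α D R := by
    rw [h3]
    nlinarith
  exact_mod_cast h9

lemma gap_dig (hα : Irrational α) {D : ℤ} (hD : α ^ 2 = D) (g : ℕ) (hg : |α| ≤ 2 ^ g) (l : ℕ) :
    ∃ b, dig α b = 1 ∧ l < b ∧ b ≤ 2 * l + (g + 2) := by
  by_contra hcon
  push Not at hcon
  have h0 : ∀ k, l < k → k ≤ l + (l + g + 2) → dig α k = 0 := by
    intro k hk1 hk2
    by_contra hne
    have h1 : dig α k = 1 := by have := dig_le α k; omega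
    have := hcon k h1 hk1
    omega
  have h1 := V_const (a := dig α) l (l + g + 2) h0
  have h2 := (exp_dig hα).lt (l + (l + g + 2))
  have h3 := (exp_dig hα).pos l
  rw [h1] at h2
  push_cast at h2
  have hV : ((V (dig α) l : ℕ) : ℝ) = ⌊α * 2 ^ l⌋ - 2 ^ l * ⌊α⌋ := by exact_mod_cast V_dig α l
  set p : ℤ := ⌊α * 2 ^ l⌋ with hp
  have h4 : 2 ^ l * Int.fract α - V (dig α) l = 2 ^ l * α - p := by
    rw [hV, Int.fract]; ring
  set q : ℝ := 2 ^ l with hq
  have hq1 : 1 ≤ q := one_le_pow₀ (by norm_num)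
  have h5 : (2 : ℝ) ^ (l + (l + g + 2)) = 2 ^ (l + g + 2) * q := by rw [← pow_add]; congr 1; ring
  rw [h5] at h2
  set δ : ℝ := q * α - p with hδ
  have hδ0 : 0 < δ := by rw [← h4]; linarith
  have h6 : 2 ^ (l + g + 2) * δ < 1 := by
    rw [← h4]
    nlinarith
  have h7 : (2 : ℝ) ^ (l + g + 2) = q * 2 ^ g * 4 := by rw [pow_add, pow_add, hq]; norm_num
  rw [h7] at h6
  -- the integer `4 ^ l D - p ^ 2`
  have h8 : ((((2 ^ l) ^ 2 * D - p ^ 2 : ℤ)) : ℝ) = δ * (δ + 2 * p) := by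
    push_cast
    rw [← hD, hδ]
    ring
  have h9 : ((2 : ℤ) ^ l) ^ 2 * D - p ^ 2 ≠ 0 := by
    intro h
    rw [h] at h8
    push_cast at h8
    have h10 : δ + 2 * p = 0 := by
      rcases mul_eq_zero.1 h8.symm with h | h
      · linarith
      · exact h
    have h11 : α * 2 ^ l = ((-p : ℤ) : ℝ) := by
      push_cast
      rw [hδ] at h10
      linarith
    exact irr_mul hα l ⟨((-p : ℤ) : ℚ), by rw [h11]; push_cast; rfl⟩
  have h10 : (1 : ℝ) ≤ |δ * (δ + 2 * p)| := by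
    rw [← h8]
    have : 1 ≤ |((2 : ℤ) ^ l) ^ 2 * D - p ^ 2| := Int.one_le_abs h9
    exact_mod_cast this
  rw [abs_mul, abs_of_pos hδ0] at h10
  have h11 : δ + 2 * p = 2 * (q * α) - δ := by rw [hδ]; ring
  rw [h11] at h10
  have h12 : |2 * (q * α) - δ| ≤ 2 * (q * 2 ^ g) + δ := by
    have h13 : |q * α| ≤ q * 2 ^ g := by
      rw [abs_mul, abs_of_pos (by linarith : (0 : ℝ) < q)]
      exact mul_le_mul_of_nonneg_left hg (by linarith)
    have h14 := abs_le.1 h13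
    rw [abs_le]
    constructor <;> linarith
  have h13 : δ * |2 * (q * α) - δ| ≤ δ * (2 * (q * 2 ^ g) + δ) := mul_le_mul_of_nonneg_left h12 hδ0.le
  have h14 : (1 : ℝ) ≤ 2 ^ g := one_le_pow₀ (by norm_num)
  have h15 : (1 : ℝ) ≤ q * 2 ^ g := by nlinarith
  have h16 : δ < 1 / 4 := by nlinarith
  nlinarith

/-- The covering inequality. -/
theorem cover (hα : Irrational α) {D : ℤ} (hD : α ^ 2 = D) :
    ∃ C n₀ : ℕ, 1 ≤ C ∧ 1 ≤ n₀ ∧ ∀ n K : ℕ, n₀ ≤ n → ∀ u w : ℕ → ℕ, (∀ i < K, u i ≤ w i) →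
      (∀ k ≤ n, dig α k = 1 → ∃ i < K, u i ≤ k ∧ k ≤ w i) →
      n ≤ C * (K * ∑ i ∈ range K, (w i + 1 - u i)) := by
  obtain ⟨g, hg⟩ : ∃ g : ℕ, |α| ≤ 2 ^ g ∧ 2 * ⌊α⌋.natAbs ≤ 2 ^ g := by
    obtain ⟨g₁, h1⟩ := pow_unbounded_of_one_lt |α| (by norm_num : (1 : ℝ) < 2)
    have h2 : 2 * ⌊α⌋.natAbs ≤ 2 ^ (2 * ⌊α⌋.natAbs) := Nat.lt_two_pow_self.le
    refine ⟨max g₁ (2 * ⌊α⌋.natAbs), ?_, ?_⟩
    · exact h1.le.trans (pow_le_pow_right₀ (by norm_num) (le_max_left _ _))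
    · exact h2.trans (Nat.pow_le_pow_right (by norm_num) (le_max_right _ _))
  obtain ⟨hg1, hg2⟩ := hg
  set z := ⌊α⌋.natAbs with hz
  refine ⟨50 * ((2 + 2 * z) + 9) + 3 * (g + 2 + g), g + 2, by omega, by omega, ?_⟩
  intro n K hn u w huw hcov
  set W := ∑ i ∈ range K, (w i + 1 - u i) with hW
  have hKW : K ≤ W := by
    calc K = ∑ i ∈ range K, 1 := by simp
      _ ≤ W := sum_le_sum fun i hi => by have := huw i (mem_range.1 hi); omega
  have hK : 1 ≤ K := by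
    obtain ⟨b, hb, hb1, hb2⟩ := gap_dig hα hD g hg1 0
    obtain ⟨i, hi, -⟩ := hcov b (by omega) hb
    omega
  refine numeric' n K W (2 + 2 * z) (g + 2 + g) (by omega) hK hKW (live (II α D) n).card
    (fun M => ?_) ?_
  · have h1 := live_le (a := dig α) (dig_le α) (II α D)
      (fun R => T (dig α) (Int.fract α) R + 2 * (z : ℕ)) (-2 * ⌊α⌋)
      (II_succ α D) (fun R => by have := T_pos (exp_dig hα) R; positivity) (II_le hα hD)
      n K u w hcov W hW M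
    refine h1.trans ?_
    have h3 := sumT_le (exp_dig hα) n K u w hcov W hW
    have h4 : ∑ R ∈ Icc 1 n, (T (dig α) (Int.fract α) R + 2 * ((z : ℕ) : ℝ)) ≤
        (W : ℝ) ^ 2 + ((2 + 2 * z : ℕ) : ℝ) * n + 8 := by
      rw [sum_add_distrib, sum_const, Nat.card_Icc, nsmul_eq_mul, Nat.add_sub_cancel]
      push_cast
      linarith
    have h5 : (∑ R ∈ Icc 1 n, (T (dig α) (Int.fract α) R + 2 * ((z : ℕ) : ℝ))) / 2 ^ M ≤
        ((W : ℝ) ^ 2 + ((2 + 2 * z : ℕ) : ℝ) * n + 8) / 2 ^ M :=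
      div_le_div_of_nonneg_right h4 (by positivity)
    linarith
  · have h1 := dead_le' (dig_le α) (dig_zero α) (II α D) (-2 * ⌊α⌋) (II_succ α D) g
      (II_low hα hD g hg2) (g + 2) (gap_dig hα hD g hg1) n
    have h2 := live_add_dead (II α D) n
    have h3 := sum_a_le (dig_le α) n K u w hcov
    rw [← hW] at h3
    have h4 : (g + 2 + g) * (∑ k ∈ range (n + 1), dig α k + 1) ≤ (g + 2 + g) * (W + 1) :=
      Nat.mul_le_mul_left _ (by omega)
    have h5 : n ≤ 2 * (live (II α D) n).card + (g + 2 + g) * (W + 1) := by omega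
    exact_mod_cast h5

end dig

end Pool.Agent.K7.H63.MR
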