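import Pool.Agent.K7.H63.MR.Words

/-!
Changes of digits in numbers with a simultaneous irrationality measure.
-/

set_option autoImplicit false

open Finset

namespace Pool.Agent.K7.H63.MR

/-- a block without changes of digits gives a good rational approximation -/
lemma approx_of_const {b : ℕ} (hb : 2 ≤ b) {α : ℝ} {s : ℕ} (hs : 1 ≤ s) (e : ℕ)
    (h : ∀ k, s ≤ k → k < s + e → dgb b α k = dgb b α (k + 1)) :
    ∃ P : ℤ, |((b : ℝ) - 1) * (b : ℝ) ^ (s - 1) * α - P| * (b : ℝ) ^ e ≤ 1 := by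
  have hbR : (2 : ℝ) ≤ b := by exact_mod_cast hb
  have hb0 : (0 : ℝ) < b := by linarith
  have hbz : (0 : ℤ) < b := by exact_mod_cast (by omega : 0 < b)
  set d := dgb b α s with hd
  set P : ℤ := (b - 1) * ⌊α * (b : ℝ) ^ (s - 1)⌋ + d with hP
  have hdig : ∀ i, i ≤ e → dgb b α (s + i) = d := by
    intro i
    induction i with
    | zero => intro _; rfl
    | succ i ih =>
      intro hi
      rw [← ih (by omega), h (s + i) (by omega) (by omega), Nat.add_assoc]
  have hfl : ∀ i, i ≤ e + 1 → ((b : ℤ) - 1) * ⌊α * (b : ℝ) ^ (s - 1 + i)⌋ = b ^ i * P - d := by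
    intro i
    induction i with
    | zero => intro _; rw [hP, Nat.add_zero]; ring
    | succ i ih =>
      intro hi
      have h1 := ih (by omega)
      have h2 := (floor_step b α (s - 1 + i)).resolve_right (by omega)
      have h3 := Int.emod_add_mul_ediv ⌊α * (b : ℝ) ^ (s - 1 + i + 1)⌋ b
      have h4 : ⌊α * (b : ℝ) ^ (s - 1 + i + 1)⌋ % (b : ℤ) = d := by
        rw [show s - 1 + i + 1 = s + i by omega]
        exact hdig i (by omega)
      rw [h2, h4] at h3
      rw [← Nat.add_assoc, ← h3, pow_succ]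
      linear_combination (b : ℤ) * h1
  refine ⟨P, ?_⟩
  have h1 := hfl (e + 1) le_rfl
  have h1R : ((b : ℝ) - 1) * ⌊α * (b : ℝ) ^ (s - 1 + (e + 1))⌋ = b ^ (e + 1) * P - d := by
    exact_mod_cast h1
  have h2 := Int.floor_le (α * (b : ℝ) ^ (s - 1 + (e + 1)))
  have h3 := Int.lt_floor_add_one (α * (b : ℝ) ^ (s - 1 + (e + 1)))
  have hd0 : 0 ≤ d := Int.emod_nonneg _ hbz.ne'
  have hd1 : d < b := Int.emod_lt_of_pos _ hbz
  have hd0R : (0 : ℝ) ≤ d := by exact_mod_cast hd0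
  have hd1R : (d : ℝ) ≤ b - 1 := by
    have : d ≤ b - 1 := by omega
    exact_mod_cast this
  have hpe : (0 : ℝ) < (b : ℝ) ^ e := by positivity
  have e1 : (((b : ℝ) - 1) * (b : ℝ) ^ (s - 1) * α - P) * (b : ℝ) ^ e * b =
      ((b : ℝ) - 1) * (α * (b : ℝ) ^ (s - 1 + (e + 1))) - b ^ (e + 1) * P := by
    rw [pow_add, pow_succ]; ring
  have h4 : |(((b : ℝ) - 1) * (b : ℝ) ^ (s - 1) * α - P) * (b : ℝ) ^ e * b| ≤ b := by
    rw [e1, abs_le]
    have hb1 : 0 ≤ (b : ℝ) - 1 := by linarith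
    have h5 := mul_le_mul_of_nonneg_left h2 hb1
    have h6 := mul_le_mul_of_nonneg_left h3.le hb1
    constructor <;> nlinarith
  rw [abs_mul, abs_mul, abs_of_pos hb0, abs_of_pos hpe] at h4
  exact le_of_mul_le_mul_right (by linarith) hb0

/-- Changes of digits in numbers with a simultaneous irrationality measure. -/
theorem joint_changes {ι : Type} (T : Finset ι) (x : ι → ℝ) (κ : ℕ) (c : ℝ) (hc : 0 < c)
    (hx : ∀ q : ℕ, 1 ≤ q → ∀ p : ι → ℤ, ∃ j ∈ T, c ≤ (q : ℝ) ^ κ * |(q : ℝ) * x j - p j|)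
    {b : ℕ} (hb : 2 ≤ b) {Q : ℕ} (hQ : 1 ≤ Q) :
    ∃ N₀ : ℕ, ∀ N : ℕ, N₀ ≤ N → Real.log N / (2 * Real.log (κ + 2 : ℕ)) ≤
      ∑ j ∈ T, (chg b (Q * x j) N : ℝ) := by
  have hbR : (2 : ℝ) ≤ b := by exact_mod_cast hb
  have hb0 : (0 : ℝ) < b := by linarith
  have hQR : (1 : ℝ) ≤ Q := by exact_mod_cast hQ
  set K := κ + 2 with hK
  set S : ℕ → ℕ := fun n => ∑ j ∈ T, chg b (Q * x j) n with hS
  have hmono : Monotone S := by
    intro m n hmn
    refine sum_le_sum fun j _ => card_le_card ?_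
    intro k hk
    rw [mem_filter, mem_Icc] at hk ⊢
    exact ⟨⟨hk.1.1, by omega⟩, hk.2⟩
  -- a change in `(t, K t]`
  obtain ⟨t₀, ht₀⟩ : ∃ t₀ : ℕ, ∀ t, t₀ ≤ t → (b : ℝ) ^ κ * (Q : ℝ) ^ κ < c * (b : ℝ) ^ t := by
    have h1 : Filter.Tendsto (fun t : ℕ => (b : ℝ) ^ t) Filter.atTop Filter.atTop :=
      tendsto_pow_atTop_atTop_of_one_lt (by linarith)
    obtain ⟨t₀, h⟩ := Filter.eventually_atTop.1
      (h1.eventually_gt_atTop ((b : ℝ) ^ κ * (Q : ℝ) ^ κ / c))
    refine ⟨t₀, fun t ht => ?_⟩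
    have h2 := h t ht
    rw [div_lt_iff₀ hc] at h2
    linarith
  have hstep : ∀ t, t₀ + 1 ≤ t → S t + 1 ≤ S (K * t) := by
    intro t ht
    have hKt : t ≤ K * t := Nat.le_mul_of_pos_left _ (by omega)
    by_contra hcon
    push Not at hcon
    have hle : ∀ j ∈ T, chg b (Q * x j) t ≤ chg b (Q * x j) (K * t) := by
      intro j _
      refine card_le_card ?_
      intro k hk
      rw [mem_filter, mem_Icc] at hk ⊢
      exact ⟨⟨hk.1.1, by omega⟩, hk.2⟩
    have heq : ∀ j ∈ T, chg b (Q * x j) (K * t) = chg b (Q * x j) t := by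
      have h1 : S (K * t) = S t := le_antisymm (by omega) (hmono hKt)
      have h2 := (sum_eq_sum_iff_of_le hle).1 h1.symm
      exact fun j hj => (h2 j hj).symm
    have hno : ∀ j ∈ T, ∀ k, t + 1 ≤ k → k < t + 1 + (K * t - t) →
        dgb b (Q * x j) k = dgb b (Q * x j) (k + 1) := by
      intro j hj k hk1 hk2
      by_contra hne
      have hss : (Icc 1 t).filter (fun k => dgb b (Q * x j) k ≠ dgb b (Q * x j) (k + 1)) ⊂
          (Icc 1 (K * t)).filter (fun k => dgb b (Q * x j) k ≠ dgb b (Q * x j) (k + 1)) := by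
        rw [ssubset_iff_of_subset]
        · refine ⟨k, ?_, ?_⟩
          · rw [mem_filter, mem_Icc]
            exact ⟨⟨by omega, by omega⟩, hne⟩
          · rw [mem_filter, mem_Icc]
            rintro ⟨⟨-, h⟩, -⟩
            omega
        · intro k hk
          rw [mem_filter, mem_Icc] at hk ⊢
          exact ⟨⟨hk.1.1, by omega⟩, hk.2⟩
      have := card_lt_card hss
      have h3 := heq j hj
      unfold chg at h3
      omega
    have happ : ∀ j ∈ T, ∃ P : ℤ, |((b : ℝ) - 1) * (b : ℝ) ^ (t + 1 - 1) * (Q * x j) - P| *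
        (b : ℝ) ^ (K * t - t) ≤ 1 := fun j hj =>
      approx_of_const hb (by omega) _ (hno j hj)
    choose! P hP using happ
    set q : ℕ := (b - 1) * b ^ t * Q with hq
    have hq1 : 1 ≤ q := by
      rw [hq]
      have h1 : 0 < b - 1 := by omega
      have h2 : 0 < b ^ t := Nat.pow_pos (by omega)
      exact Nat.mul_pos (Nat.mul_pos h1 h2) (by omega)
    obtain ⟨j, hj, hcj⟩ := hx q hq1 P
    have hPj := hP j hj
    have hqR : (q : ℝ) = ((b : ℝ) - 1) * (b : ℝ) ^ t * Q := by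
      rw [hq]; push_cast
      rw [Nat.cast_sub (by omega)]; push_cast; ring
    have e1 : ((b : ℝ) - 1) * (b : ℝ) ^ (t + 1 - 1) * (Q * x j) - P j = q * x j - P j := by
      rw [hqR, Nat.add_sub_cancel]; ring
    rw [e1] at hPj
    have hqle : (q : ℝ) ≤ (b : ℝ) ^ (t + 1) * Q := by
      rw [hqR, pow_succ]
      have : (0 : ℝ) < (b : ℝ) ^ t := by positivity
      nlinarith [mul_pos this (by linarith : (0 : ℝ) < Q)]
    have e2 : K * t - t = (κ + 1) * t := by
      rw [hK]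
      have : (κ + 2) * t = (κ + 1) * t + t := by ring
      omega
    rw [e2] at hPj
    -- contradiction
    have h1 : c * (b : ℝ) ^ ((κ + 1) * t) ≤ (q : ℝ) ^ κ := by
      calc c * (b : ℝ) ^ ((κ + 1) * t) ≤
            ((q : ℝ) ^ κ * |(q : ℝ) * x j - P j|) * (b : ℝ) ^ ((κ + 1) * t) :=
            mul_le_mul_of_nonneg_right hcj (by positivity)
        _ = (q : ℝ) ^ κ * (|(q : ℝ) * x j - P j| * (b : ℝ) ^ ((κ + 1) * t)) := by ring
        _ ≤ (q : ℝ) ^ κ * 1 := mul_le_mul_of_nonneg_left hPj (by positivity)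
        _ = _ := mul_one _
    have h2 : (q : ℝ) ^ κ ≤ ((b : ℝ) ^ (t + 1) * Q) ^ κ :=
      pow_le_pow_left₀ (Nat.cast_nonneg _) hqle κ
    have e3 : ((b : ℝ) ^ (t + 1) * Q) ^ κ = (b : ℝ) ^ (κ * t) * ((b : ℝ) ^ κ * (Q : ℝ) ^ κ) := by
      rw [mul_pow, ← pow_mul, Nat.add_mul, one_mul, pow_add, Nat.mul_comm t κ]; ring
    have e4 : (b : ℝ) ^ ((κ + 1) * t) = (b : ℝ) ^ (κ * t) * (b : ℝ) ^ t := by
      rw [Nat.add_mul, one_mul, pow_add]
    have h3 := ht₀ t (by omega)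
    have hpos : (0 : ℝ) < (b : ℝ) ^ (κ * t) := by positivity
    have h4 := h1.trans h2
    rw [e3, e4] at h4
    have h5 : (b : ℝ) ^ (κ * t) * (c * (b : ℝ) ^ t) ≤
        (b : ℝ) ^ (κ * t) * ((b : ℝ) ^ κ * (Q : ℝ) ^ κ) := by linarith
    have h6 := le_of_mul_le_mul_left h5 hpos
    linarith
  -- iteration
  set t₁ := t₀ + 1 with ht₁
  have hK2 : 2 ≤ K := by omega
  have hiter : ∀ i : ℕ, i ≤ S (K ^ i * t₁) := by
    intro i
    induction i with
    | zero => exact Nat.zero_le _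
    | succ i ih =>
      have h1 : t₁ ≤ K ^ i * t₁ := Nat.le_mul_of_pos_left _ (Nat.pow_pos (by omega))
      have h2 := hstep (K ^ i * t₁) (by omega)
      have h3 : K ^ (i + 1) * t₁ = K * (K ^ i * t₁) := by rw [pow_succ]; ring
      rw [h3]
      omega
  have hKR : (2 : ℝ) ≤ K := by exact_mod_cast hK2
  have hlogK : 0 < Real.log K := Real.log_pos (by linarith)
  obtain ⟨N₀, hN₀⟩ := Filter.eventually_atTop.1
    ((Real.tendsto_log_atTop.comp (tendsto_natCast_atTop_atTop (R := ℝ))).eventually_ge_atTop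
      (2 * (Real.log t₁ + Real.log K)))
  refine ⟨N₀ + t₁, fun N hN => ?_⟩
  have hlog := hN₀ N (by omega)
  simp only [Function.comp] at hlog
  have ht₁R : (0 : ℝ) < t₁ := by
    have : 0 < t₁ := by omega
    exact_mod_cast this
  have hNR : (0 : ℝ) < N := by
    have : 0 < N := by omega
    exact_mod_cast this
  -- the number of steps
  obtain ⟨i, hi1, hi2⟩ : ∃ i : ℕ, K ^ i * t₁ ≤ N ∧ N < K ^ (i + 1) * t₁ := by
    have hex : ∃ i : ℕ, N < K ^ i * t₁ := by
      refine ⟨N, ?_⟩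
      have h1 : N < 2 ^ N := Nat.lt_two_pow_self
      have h2 : 2 ^ N ≤ K ^ N := Nat.pow_le_pow_left hK2 N
      have h3 : K ^ N ≤ K ^ N * t₁ := Nat.le_mul_of_pos_right _ (by omega)
      omega
    classical
    have h1 := Nat.find_spec hex
    have h0 : Nat.find hex ≠ 0 := by
      intro h
      rw [h, pow_zero, one_mul] at h1
      omega
    obtain ⟨i, hi⟩ := Nat.exists_eq_succ_of_ne_zero h0
    refine ⟨i, ?_, ?_⟩
    · have := Nat.find_min hex (m := i) (by omega)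
      omega
    · rw [hi] at h1
      exact h1
  have h1 : (i : ℝ) ≤ ∑ j ∈ T, (chg b (Q * x j) N : ℝ) := by
    have h2 : i ≤ S N := (hiter i).trans (hmono hi1)
    have h3 : ((S N : ℕ) : ℝ) = ∑ j ∈ T, (chg b (Q * x j) N : ℝ) := by
      rw [hS]; push_cast; rfl
    rw [← h3]
    exact_mod_cast h2
  refine le_trans ?_ h1
  have h2 : Real.log N < (i + 1) * Real.log K + Real.log t₁ := by
    have h3 : (N : ℝ) < (K : ℝ) ^ (i + 1) * t₁ := by exact_mod_cast hi2
    have h4 := Real.log_lt_log hNR h3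
    rw [Real.log_mul (by positivity) (by positivity), Real.log_pow] at h4
    push_cast at h4
    exact h4
  rw [div_le_iff₀ (by positivity)]
  nlinarith

end Pool.Agent.K7.H63.MR
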