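import Pool.Agent.K7.H63.MR.Rot

/-!
Multiples of a real number in short arcs, with a shift: if `Q θ` is not too near an integer, where
`Q` is divisible by all `q ≤ N`, then the fractional part of `m θ + y` lies in a given arc of
length `1 / N` for at most `12 M / N` of the `m < M`.
-/

set_option autoImplicit false

open Finset
open scoped Classical

namespace Pool.Agent.K7.H63.MR

theorem rot3 (θ y x : ℝ) (N M Q : ℕ) (hN : 1 ≤ N) (hM : N ≤ M) (hQ0 : 0 < Q)
    (hQ : ∀ q, 1 ≤ q → q ≤ N → q ∣ Q) (hfr : ∀ z : ℤ, (Q : ℝ) ≤ 2 * M * |Q * θ - z|) :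
    N * ((range M).filter (fun m : ℕ => x ≤ Int.fract ((m : ℝ) * θ + y) ∧
      Int.fract ((m : ℝ) * θ + y) < x + 1 / (N : ℝ))).card ≤ 12 * M := by
  obtain ⟨r, hr1, hr2⟩ := Real.exists_rat_abs_sub_le_and_den_le θ (show 0 < N by omega)
  set q : ℕ := r.den with hq
  set a : ℤ := r.num with ha
  have hq1 : 1 ≤ q := r.den_pos
  have hqR : (1 : ℝ) ≤ q := by exact_mod_cast hq1
  have hNR : (1 : ℝ) ≤ N := by exact_mod_cast hN
  have hcop : IsCoprime (q : ℤ) a := by
    rw [hq, ha, Int.isCoprime_iff_gcd_eq_one, Int.gcd_comm]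
    exact r.reduced
  set β : ℝ := q * θ - a with hβ
  have hβabs : |β| * (N + 1) ≤ 1 := by
    have e : θ - (r : ℝ) = β / q := by
      rw [hβ, Rat.cast_def, ← hq, ← ha]
      field_simp
    rw [e, abs_div, abs_of_pos (show (0 : ℝ) < q by linarith), div_le_div_iff₀ (by linarith)
      (by positivity)] at hr1
    have h1 : |β| * (((N : ℝ) + 1) * q) ≤ 1 * q := hr1
    have h2 : (|β| * ((N : ℝ) + 1)) * q ≤ 1 * q := by linarith
    exact le_of_mul_le_mul_right h2 (by linarith)
  have hβ0 := abs_nonneg β
  set P : ℕ → Prop := fun m : ℕ => x ≤ Int.fract ((m : ℝ) * θ + y) ∧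
      Int.fract ((m : ℝ) * θ + y) < x + 1 / (N : ℝ) with hP
  -- the integer attached to `m`
  set c : ℕ → ℤ := fun m => a * m - q * ⌊(m : ℝ) * θ + y⌋ with hc
  set f : ℕ → ℝ := fun m => Int.fract ((m : ℝ) * θ + y) - x with hf
  have hcR : ∀ m : ℕ, (c m : ℝ) = q * (x - y) + q * f m - m * β := by
    intro m
    rw [hc, hβ, hf]
    push_cast
    simp only [Int.fract]
    ring
  have hcdvd : ∀ m m' : ℕ, c m = c m' → (q : ℤ) ∣ (m : ℤ) - m' := by
    intro m m' h
    have h1 : a * ((m : ℤ) - m') = q * (⌊(m : ℝ) * θ + y⌋ - ⌊(m' : ℝ) * θ + y⌋) := by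
      have : a * (m : ℤ) - q * ⌊(m : ℝ) * θ + y⌋ = a * (m' : ℤ) - q * ⌊(m' : ℝ) * θ + y⌋ := h
      linarith
    exact hcop.dvd_of_dvd_mul_left ⟨_, h1⟩
  have hfr0 : ∀ m : ℕ, P m → 0 ≤ (q : ℝ) * f m := fun m hm =>
    mul_nonneg (by linarith) (by have := hm.1; rw [hf]; linarith)
  have hfrN : ∀ m : ℕ, P m → (q : ℝ) * f m * N < q := by
    intro m hm
    have h1 : f m < 1 / (N : ℝ) := by have := hm.2; rw [hf]; linarith
    rw [lt_div_iff₀ (by linarith)] at h1
    calc (q : ℝ) * f m * N = q * (f m * N) := by ring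
      _ < q * 1 := mul_lt_mul_of_pos_left h1 (by linarith)
      _ = q := mul_one _
  by_cases hreg : N < 2 * q
  · -- first regime: blocks of length `q`
    have hqN : q ≤ N := hr2
    refine blocks P q M N hq1 (hqN.trans hM) fun s => ?_
    have hqNR : (q : ℝ) ≤ N := by exact_mod_cast hqN
    suffices h : ((Ico s (s + q)).filter P).card ≤ 2 by
      calc N * _ ≤ N * 2 := Nat.mul_le_mul_left _ h
        _ ≤ 6 * q := by omega
    have hbd : ∀ m ∈ (Ico s (s + q)).filter P,
        0 ≤ (q : ℝ) * f m ∧ (q : ℝ) * f m < 1 ∧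
        0 ≤ ((m : ℝ) - s) ∧ ((m : ℝ) - s) * |β| < 1 := by
      intro m hm
      rw [mem_filter, mem_Ico] at hm
      obtain ⟨⟨h1, h2⟩, h3⟩ := hm
      refine ⟨hfr0 m h3, ?_, ?_, ?_⟩
      · have := hfrN m h3
        have h4 := hfr0 m h3
        by_contra hcon
        push Not at hcon
        nlinarith
      · have : (s : ℝ) ≤ m := by exact_mod_cast h1
        linarith
      · have h4 : (m : ℝ) + 1 ≤ s + q := by exact_mod_cast h2
        have h5 : (m : ℝ) - s ≤ N - 1 := by linarith
        have h6 : 0 ≤ (m : ℝ) - s := by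
          have : (s : ℝ) ≤ m := by exact_mod_cast h1
          linarith
        have h7 : ((m : ℝ) - s) * |β| ≤ (N - 1) * |β| := mul_le_mul_of_nonneg_right h5 hβ0
        nlinarith
    -- the values of `c` lie in a set of two integers
    set w : ℤ := if 0 ≤ β then ⌊q * (x - y) - (s : ℝ) * β⌋ else ⌈q * (x - y) - (s : ℝ) * β⌉ with hw
    have hmaps : ∀ m ∈ (Ico s (s + q)).filter P, c m ∈ Icc w (w + 1) := by
      intro m hm
      obtain ⟨h1, h2, h3, h4⟩ := hbd m hm
      have h5 := hcR m
      rw [mem_Icc]
      rcases le_or_gt 0 β with hb | hb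
      · rw [abs_of_nonneg hb] at h4
        have hw' : w = ⌊q * (x - y) - (s : ℝ) * β⌋ := by rw [hw, if_pos hb]
        have h6 := Int.floor_le (q * (x - y) - (s : ℝ) * β)
        have h7 := Int.lt_floor_add_one (q * (x - y) - (s : ℝ) * β)
        rw [← hw'] at h6 h7
        constructor
        · have : (w : ℝ) - 1 < c m := by rw [h5]; nlinarith
          have : w - 1 < c m := by exact_mod_cast this
          omega
        · have h8 : 0 ≤ ((m : ℝ) - s) * β := mul_nonneg h3 hb
          have : (c m : ℝ) < w + 2 := by rw [h5]; nlinarith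
          have : c m < w + 2 := by exact_mod_cast this
          omega
      · rw [abs_of_neg hb] at h4
        have hw' : w = ⌈q * (x - y) - (s : ℝ) * β⌉ := by rw [hw, if_neg (not_le.2 hb)]
        have h6 := Int.le_ceil (q * (x - y) - (s : ℝ) * β)
        have h7 := Int.ceil_lt_add_one (q * (x - y) - (s : ℝ) * β)
        rw [← hw'] at h6 h7
        have h8 : 0 ≤ ((m : ℝ) - s) * (-β) := mul_nonneg h3 (by linarith)
        constructor
        · have : (w : ℝ) - 1 < c m := by rw [h5]; nlinarith
          have : w - 1 < c m := by exact_mod_cast this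
          omega
        · have : (c m : ℝ) < w + 2 := by rw [h5]; nlinarith
          have : c m < w + 2 := by exact_mod_cast this
          omega
    have hinj : Set.InjOn c ((Ico s (s + q)).filter P : Finset ℕ) := by
      intro m hm m' hm' h
      rw [mem_coe, mem_filter, mem_Ico] at hm hm'
      have h1 := hcdvd m m' h
      have h2 : |(m : ℤ) - m'| < q := by
        rw [abs_lt]
        constructor <;> omega
      have h3 := Int.eq_zero_of_abs_lt_dvd h1 h2
      omega
    have := card_le_card_of_injOn c hmaps hinj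
    rw [Int.card_Icc] at this
    omega
  · -- second regime
    push Not at hreg
    have hregR : 2 * (q : ℝ) ≤ N := by exact_mod_cast hreg
    have hhalf : ∀ m : ℕ, P m → (q : ℝ) * f m < 1 / 2 := by
      intro m hm
      have h1 := hfrN m hm
      have h2 := hfr0 m hm
      by_contra hcon
      push Not at hcon
      nlinarith
    have hMR : (N : ℝ) ≤ M := by exact_mod_cast hM
    by_cases hsmall : 2 * (M : ℝ) * |β| < 1
    · -- `β` is tiny
      exfalso
      obtain ⟨Q', hQ'⟩ := hQ q hq1 hr2
      have hQ'0 : 0 < Q' := by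
        rcases Nat.eq_zero_or_pos Q' with h | h
        · rw [h, Nat.mul_zero] at hQ'; omega
        · exact h
      have h0 := hfr (Q' * a)
      have e1 : (Q : ℝ) * θ - ((Q' * a : ℤ) : ℝ) = (Q' : ℝ) * β := by
        rw [hQ', hβ]
        push_cast
        ring
      rw [e1, abs_mul, abs_of_nonneg (Nat.cast_nonneg Q')] at h0
      have h2 : (Q : ℝ) = q * Q' := by rw [hQ']; push_cast; ring
      have h3 : (0 : ℝ) < Q' := by exact_mod_cast hQ'0
      have h6 : 2 * (M : ℝ) * (Q' * |β|) = (2 * M * |β|) * Q' := by ring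
      nlinarith
    · -- blocks of length about `1 / (2 |β|)`
      push Not at hsmall
      have hβpos : 0 < |β| := by
        rcases hβ0.lt_or_eq with h | h
        · exact h
        · rw [← h] at hsmall; norm_num at hsmall
      set H : ℕ := ⌈1 / (2 * |β|)⌉₊ with hH
      have hinv : 0 < 1 / (2 * |β|) := by positivity
      have hH1 : 1 ≤ H := Nat.ceil_pos.2 hinv
      have hHle : 1 / (2 * |β|) ≤ H := Nat.le_ceil _
      have hHlt : (H : ℝ) < 1 / (2 * |β|) + 1 := Nat.ceil_lt_add_one hinv.le
      have hHM : H ≤ M := by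
        rw [hH, Nat.ceil_le, div_le_iff₀ (by positivity)]
        linarith
      have hHβ : ((H : ℝ) - 1) * |β| < 1 / 2 := by
        have : (H : ℝ) - 1 < 1 / (2 * |β|) := by linarith
        calc ((H : ℝ) - 1) * |β| < 1 / (2 * |β|) * |β| := mul_lt_mul_of_pos_right this hβpos
          _ = 1 / 2 := by field_simp
      refine blocks P H M N hH1 hHM fun s => ?_
      set F := (Ico s (s + H)).filter P with hF
      rcases F.eq_empty_or_nonempty with hemp | hne
      · rw [hemp]; simp
      set m₁ := F.min' hne with hm₁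
      have hm₁F : m₁ ∈ F := F.min'_mem hne
      have hm₁F' := hm₁F
      rw [hF, mem_filter, mem_Ico] at hm₁F'
      -- every element is congruent to `m₁` and close to it
      have hkey : ∀ m ∈ F, ∃ i : ℕ, m = m₁ + i * q ∧ (i : ℝ) * |β| * N < 1 := by
        intro m hm
        have hle : m₁ ≤ m := F.min'_le m hm
        have hleR : (m₁ : ℝ) ≤ m := by exact_mod_cast hle
        rw [hF, mem_filter, mem_Ico] at hm
        have h1 := hhalf m hm.2
        have h2 := hhalf m₁ hm₁F'.2
        have h3 := hfr0 m hm.2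
        have h4 := hfr0 m₁ hm₁F'.2
        have h5 : (m : ℝ) - m₁ ≤ H - 1 := by
          have : (m : ℝ) + 1 ≤ s + H := by exact_mod_cast hm.1.2
          have : (s : ℝ) ≤ m₁ := by exact_mod_cast hm₁F'.1.1
          linarith
        have h6 : ((m : ℝ) - m₁) * |β| < 1 / 2 :=
          lt_of_le_of_lt (mul_le_mul_of_nonneg_right h5 hβ0) hHβ
        have h7 : |((m : ℝ) - m₁) * β| < 1 / 2 := by
          rw [abs_mul, abs_of_nonneg (by linarith : (0 : ℝ) ≤ (m : ℝ) - m₁)]
          exact h6
        have h8 : (c m : ℝ) - c m₁ = (q : ℝ) * f m - q * f m₁ - ((m : ℝ) - m₁) * β := by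
          rw [hcR, hcR]; ring
        have h9 := abs_lt.1 h7
        have h10 : |(c m : ℝ) - c m₁| < 1 := by
          rw [h8, abs_lt]
          constructor <;> linarith
        have h11 : c m = c m₁ := by
          have h12 : |c m - c m₁| < 1 := by exact_mod_cast h10
          have := Int.abs_lt_one_iff.1 h12
          omega
        obtain ⟨z, hz⟩ := hcdvd m m₁ h11
        have hz0 : 0 ≤ z := by
          by_contra hcon
          push Not at hcon
          have h13 : (0 : ℤ) < q := by exact_mod_cast hq1
          have h14 : (m₁ : ℤ) ≤ m := by exact_mod_cast hle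
          nlinarith
        obtain ⟨i, rfl⟩ := Int.eq_ofNat_of_zero_le hz0
        refine ⟨i, ?_, ?_⟩
        · have : (m : ℤ) = m₁ + i * q := by linarith
          exact_mod_cast this
        · have h13 : (m : ℝ) - m₁ = q * i := by
            have : ((m : ℤ) : ℝ) - ((m₁ : ℤ) : ℝ) = ((q * i : ℤ) : ℝ) := by
              rw [← hz]; push_cast; ring
            push_cast at this
            exact this
          have h14 : ((m : ℝ) - m₁) * β = (q : ℝ) * f m - q * f m₁ := by
            rw [h11, sub_self] at h8
            linarith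
          have h15 := hfrN m hm.2
          have h16 := hfrN m₁ hm₁F'.2
          have h17 : |((m : ℝ) - m₁) * β| * N < q := by
            rw [h14]
            have h18 : |(q : ℝ) * f m - q * f m₁| * N =
                |(q : ℝ) * f m * N - q * f m₁ * N| := by
              rw [← sub_mul, abs_mul, abs_of_pos (show (0 : ℝ) < N by linarith)]
            rw [h18, abs_lt]
            have h19 : 0 ≤ (q : ℝ) * f m * N := mul_nonneg h3 (by linarith)
            have h20 : 0 ≤ (q : ℝ) * f m₁ * N := mul_nonneg h4 (by linarith)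
            constructor <;> linarith
          rw [h13, abs_mul, abs_of_nonneg (by positivity : (0 : ℝ) ≤ (q : ℝ) * i)] at h17
          have h18 : (q : ℝ) * ((i : ℝ) * |β| * N) < q * 1 := by linarith
          exact lt_of_mul_lt_mul_left h18 (by linarith)
      -- count
      set B : ℕ := ⌈1 / (|β| * N)⌉₊ with hB
      have hBpos : 0 < 1 / (|β| * N) := by positivity
      have hcard : F.card ≤ B := by
        have hsub : F ⊆ (range B).image (fun i => m₁ + i * q) := by
          intro m hm
          obtain ⟨i, hi1, hi2⟩ := hkey m hm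
          rw [mem_image]
          refine ⟨i, ?_, hi1.symm⟩
          rw [mem_range, hB, Nat.lt_ceil, lt_div_iff₀ (by positivity)]
          linarith
        calc F.card ≤ _ := card_le_card hsub
          _ ≤ (range B).card := card_image_le
          _ = B := card_range B
      have hBR : (B : ℝ) < 1 / (|β| * N) + 1 := Nat.ceil_lt_add_one hBpos.le
      have h1 : (N : ℝ) * B ≤ 6 * H := by
        have h2 : (N : ℝ) * B < 1 / |β| + N := by
          calc (N : ℝ) * B < N * (1 / (|β| * N) + 1) := mul_lt_mul_of_pos_left hBR (by linarith)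
            _ = 1 / |β| + N := by field_simp
        have h3 : 1 / |β| ≤ 2 * H := by
          have : 1 / |β| = 2 * (1 / (2 * |β|)) := by field_simp
          rw [this]
          linarith
        have h4 : (N : ℝ) ≤ 1 / |β| := by
          rw [le_div_iff₀ hβpos]
          nlinarith
        linarith
      have h2 : N * B ≤ 6 * H := by exact_mod_cast h1
      exact (Nat.mul_le_mul_left _ hcard).trans h2

end Pool.Agent.K7.H63.MR
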