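import Pool.Agent.K7.H63.MR.Rot2
import Pool.Agent.K7.H59.DC.Cubic

/-!
Words of digits in almost all multiples of `√2`.
-/

set_option autoImplicit false

open Finset

namespace Pool.Agent.K7.H63.MR

/-- the numbers with `r` digits in base `B`, all different from `W` -/
def avoid (B W : ℕ) : ℕ → Finset ℕ
  | 0 => {0}
  | r + 1 => ((avoid B W r) ×ˢ ((range B).erase W)).image (fun p => p.1 * B + p.2)

lemma card_avoid (B W : ℕ) (hW : W < B) (r : ℕ) : (avoid B W r).card ≤ (B - 1) ^ r := by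
  induction r with
  | zero => simp [avoid]
  | succ r ih =>
    rw [avoid, pow_succ]
    refine card_image_le.trans ?_
    rw [card_product, card_erase_of_mem (mem_range.2 hW), card_range]
    exact Nat.mul_le_mul_right _ ih

lemma floor_step (B : ℕ) (z : ℝ) (i : ℕ) :
    ⌊z * (B : ℝ) ^ (i + 1)⌋ / (B : ℤ) = ⌊z * (B : ℝ) ^ i⌋ ∨ B = 0 := by
  rcases Nat.eq_zero_or_pos B with h | h
  · exact Or.inr h
  · left
    rw [← Int.floor_div_natCast]
    congr 1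
    have : (0 : ℝ) < B := by exact_mod_cast h
    field_simp
    ring

lemma mem_avoid {B W : ℕ} (hB : 1 ≤ B) (z : ℝ) (r : ℕ)
    (h : ∀ i < r, ⌊z * (B : ℝ) ^ (i + 1)⌋ % (B : ℤ) ≠ W) :
    ⌊Int.fract z * (B : ℝ) ^ r⌋₊ ∈ avoid B W r := by
  have hBz : (0 : ℤ) < B := by exact_mod_cast hB
  have hBR : (0 : ℝ) < B := by exact_mod_cast hB
  have hG : ∀ r : ℕ, (⌊Int.fract z * (B : ℝ) ^ r⌋₊ : ℤ) = ⌊z * (B : ℝ) ^ r⌋ - B ^ r * ⌊z⌋ := by
    intro r
    rw [Int.natCast_floor_eq_floor (mul_nonneg (Int.fract_nonneg z) (by positivity))]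
    have : Int.fract z * (B : ℝ) ^ r = z * (B : ℝ) ^ r - ((B ^ r * ⌊z⌋ : ℤ) : ℝ) := by
      rw [Int.fract]; push_cast; ring
    rw [this, Int.floor_sub_intCast]
  induction r with
  | zero =>
    have : ⌊Int.fract z * (B : ℝ) ^ 0⌋₊ = 0 := by
      rw [pow_zero, mul_one, Nat.floor_eq_zero]
      exact Int.fract_lt_one z
    rw [this]
    simp [avoid]
  | succ r ih =>
    have ih' := ih (fun i hi => h i (by omega))
    have h1 := h r (by omega)
    have h2 := (floor_step B z r).resolve_right (by omega)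
    have h3 := Int.emod_add_mul_ediv ⌊z * (B : ℝ) ^ (r + 1)⌋ B
    have h4 := Int.emod_nonneg ⌊z * (B : ℝ) ^ (r + 1)⌋ hBz.ne'
    have h5 := Int.emod_lt_of_pos ⌊z * (B : ℝ) ^ (r + 1)⌋ hBz
    rw [h2] at h3
    rw [avoid, mem_image]
    obtain ⟨e, he⟩ := Int.eq_ofNat_of_zero_le h4
    rw [he] at h1 h3 h5
    refine ⟨(⌊Int.fract z * (B : ℝ) ^ r⌋₊, e), ?_, ?_⟩
    · rw [mem_product]
      refine ⟨ih', mem_erase.2 ⟨?_, mem_range.2 (by exact_mod_cast h5)⟩⟩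
      intro h6
      exact h1 (by rw [← h6])
    · have h6 := hG (r + 1)
      have h7 := hG r
      have h8 : ((⌊Int.fract z * (B : ℝ) ^ r⌋₊ * B + e : ℕ) : ℤ) =
          (⌊Int.fract z * (B : ℝ) ^ (r + 1)⌋₊ : ℤ) := by
        push_cast
        rw [h6, h7, ← h3, pow_succ]
        ring
      exact_mod_cast h8

open Classical in
/-- few multiples avoid the word in all the blocks -/
lemma count_avoid (θ : ℝ) (B W r M Q : ℕ) (hB : 1 ≤ B) (hW : W < B) (hM : B ^ r ≤ M) (hQ0 : 0 < Q)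
    (hQ : ∀ q, 1 ≤ q → q ≤ B ^ r → q ∣ Q) (hfr : ∀ z : ℤ, (Q : ℝ) ≤ 2 * M * |Q * θ - z|) :
    B ^ r * ((range M).filter (fun m : ℕ => ∀ i < r,
      ⌊(m : ℝ) * θ * (B : ℝ) ^ (i + 1)⌋ % (B : ℤ) ≠ W)).card ≤ 12 * M * (B - 1) ^ r := by
  have hN : 1 ≤ B ^ r := Nat.one_le_pow _ _ hB
  have hNR : (0 : ℝ) < ((B ^ r : ℕ) : ℝ) := by exact_mod_cast hN
  have hsub : (range M).filter (fun m : ℕ => ∀ i < r,
      ⌊(m : ℝ) * θ * (B : ℝ) ^ (i + 1)⌋ % (B : ℤ) ≠ W) ⊆ (avoid B W r).biUnion (fun a =>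
        (range M).filter (fun m : ℕ => (a : ℝ) / ((B ^ r : ℕ) : ℝ) ≤ Int.fract ((m : ℝ) * θ) ∧
          Int.fract ((m : ℝ) * θ) < (a : ℝ) / ((B ^ r : ℕ) : ℝ) + 1 / ((B ^ r : ℕ) : ℝ))) := by
    intro m hm
    rw [mem_filter] at hm
    rw [mem_biUnion]
    refine ⟨_, mem_avoid hB ((m : ℝ) * θ) r hm.2, ?_⟩
    rw [mem_filter]
    have h0 : 0 ≤ Int.fract ((m : ℝ) * θ) * (B : ℝ) ^ r :=
      mul_nonneg (Int.fract_nonneg _) (by positivity)
    have h1 := Nat.floor_le h0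
    have h2 := Nat.lt_floor_add_one (Int.fract ((m : ℝ) * θ) * (B : ℝ) ^ r)
    have e : ((B ^ r : ℕ) : ℝ) = (B : ℝ) ^ r := by push_cast; rfl
    refine ⟨hm.1, ?_, ?_⟩
    · rw [div_le_iff₀ hNR, e]
      exact h1
    · rw [← add_div, lt_div_iff₀ hNR, e]
      exact h2
  have h1 := card_le_card hsub
  calc B ^ r * _ ≤ B ^ r * ∑ a ∈ avoid B W r, ((range M).filter (fun m : ℕ =>
        (a : ℝ) / ((B ^ r : ℕ) : ℝ) ≤ Int.fract ((m : ℝ) * θ) ∧
          Int.fract ((m : ℝ) * θ) < (a : ℝ) / ((B ^ r : ℕ) : ℝ) + 1 / ((B ^ r : ℕ) : ℝ))).card :=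
        Nat.mul_le_mul_left _ (h1.trans card_biUnion_le)
    _ = ∑ a ∈ avoid B W r, B ^ r * ((range M).filter (fun m : ℕ =>
        (a : ℝ) / ((B ^ r : ℕ) : ℝ) ≤ Int.fract ((m : ℝ) * θ) ∧
          Int.fract ((m : ℝ) * θ) < (a : ℝ) / ((B ^ r : ℕ) : ℝ) + 1 / ((B ^ r : ℕ) : ℝ))).card := by
        rw [mul_sum]
    _ ≤ ∑ _a ∈ avoid B W r, 12 * M := sum_le_sum fun a _ => rot2 θ _ (B ^ r) M Q hN hM hQ0 hQ hfr
    _ = (avoid B W r).card * (12 * M) := by rw [sum_const, smul_eq_mul]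
    _ ≤ (B - 1) ^ r * (12 * M) := Nat.mul_le_mul_right _ (card_avoid B W hW r)
    _ = 12 * M * (B - 1) ^ r := Nat.mul_comm _ _

/-- the digits in base `b` -/
noncomputable def dgb (b : ℕ) (α : ℝ) (k : ℕ) : ℤ := ⌊α * (b : ℝ) ^ k⌋ % b

/-- the number of changes of digits -/
noncomputable def chg (b : ℕ) (α : ℝ) (n : ℕ) : ℕ :=
  ((Icc 1 n).filter (fun k => dgb b α k ≠ dgb b α (k + 1))).card

/-- the number of places `k` in `[0, n)` such that the `l` digits after the first `k` digits form the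
word `W` -/
noncomputable def occW (b l W : ℕ) (x : ℝ) (n : ℕ) : ℕ :=
  ((range n).filter (fun k => ⌊x * (b : ℝ) ^ (k + l)⌋ % ((b ^ l : ℕ) : ℤ) = W)).card

lemma occW_shift (b l W : ℕ) (x : ℝ) (n i : ℕ) :
    ((Icc 1 n).filter (fun k => ⌊x * (b : ℝ) ^ (k - 1 + i + l)⌋ % ((b ^ l : ℕ) : ℤ) = W)).card ≤
      occW b l W x n + i := by
  have h1 : ((Icc 1 n).filter (fun k =>
      ⌊x * (b : ℝ) ^ (k - 1 + i + l)⌋ % ((b ^ l : ℕ) : ℤ) = W)).card ≤
      ((range (n + i)).filter (fun k => ⌊x * (b : ℝ) ^ (k + l)⌋ % ((b ^ l : ℕ) : ℤ) = W)).card := by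
    refine card_le_card_of_injOn (fun k => k - 1 + i) ?_ ?_
    · intro k hk
      rw [mem_coe, mem_filter, mem_Icc] at hk
      simp only [mem_coe, mem_filter, mem_range]
      exact ⟨by omega, hk.2⟩
    · intro u hu v hv h
      rw [mem_coe, mem_filter, mem_Icc] at hu hv
      simp only at h
      omega
  have h2 : (range (n + i)).filter (fun k => ⌊x * (b : ℝ) ^ (k + l)⌋ % ((b ^ l : ℕ) : ℤ) = W) ⊆
      (range n).filter (fun k => ⌊x * (b : ℝ) ^ (k + l)⌋ % ((b ^ l : ℕ) : ℤ) = W) ∪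
        Ico n (n + i) := by
    intro k hk
    rw [mem_filter, mem_range] at hk
    rw [mem_union, mem_filter, mem_range, mem_Ico]
    by_cases h : k < n
    · exact Or.inl ⟨h, hk.2⟩
    · exact Or.inr ⟨by omega, hk.1⟩
  have h3 := (card_le_card h2).trans (card_union_le _ _)
  rw [Nat.card_Ico] at h3
  unfold occW
  omega

/-- at a change of digits the number is far from the integers -/
lemma far_of_change {b : ℕ} (hb : 2 ≤ b) {α : ℝ} {k : ℕ} (hk : 1 ≤ k)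
    (h : dgb b α k ≠ dgb b α (k + 1)) (z : ℤ) :
    1 ≤ (b : ℝ) ^ 2 * |α * (b : ℝ) ^ (k - 1) - z| := by
  by_contra hcon
  push Not at hcon
  apply h
  set y := α * (b : ℝ) ^ (k - 1) with hy
  have hbR : (2 : ℝ) ≤ b := by exact_mod_cast hb
  have hbz : (0 : ℤ) < b := by exact_mod_cast (by omega : 0 < b)
  have e1 : α * (b : ℝ) ^ k = (y - z) * b + ((b * z : ℤ) : ℝ) := by
    rw [hy]
    have : (b : ℝ) ^ k = b ^ (k - 1) * b := by rw [← pow_succ]; congr 1; omega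
    rw [this]
    push_cast
    ring
  have e2 : α * (b : ℝ) ^ (k + 1) = (y - z) * b ^ 2 + ((b * (b * z) : ℤ) : ℝ) := by
    rw [pow_succ, ← mul_assoc, e1]
    push_cast
    ring
  set u := y - z with hu
  have hu2 : |u| * (b : ℝ) ^ 2 < 1 := by rw [mul_comm]; exact hcon
  have hu1 : |u| * (b : ℝ) < 1 := by
    have h0 := abs_nonneg u
    have h1 : |u| * (b : ℝ) ≤ |u| * (b : ℝ) ^ 2 := mul_le_mul_of_nonneg_left (by nlinarith) h0
    linarith
  unfold dgb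
  rw [e1, e2, Int.floor_add_intCast, Int.floor_add_intCast]
  rcases le_or_gt 0 u with h0 | h0
  · rw [abs_of_nonneg h0] at hu1 hu2
    have f1 : ⌊u * b⌋ = 0 := by
      rw [Int.floor_eq_zero_iff]
      exact ⟨by positivity, hu1⟩
    have f2 : ⌊u * (b : ℝ) ^ 2⌋ = 0 := by
      rw [Int.floor_eq_zero_iff]
      exact ⟨by positivity, hu2⟩
    rw [f1, f2]
    simp
  · rw [abs_of_neg h0] at hu1 hu2
    have hb0 : (0 : ℝ) < b := by linarith
    have f1 : ⌊u * b⌋ = -1 := by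
      rw [Int.floor_eq_iff]
      push_cast
      constructor
      · linarith
      · nlinarith
    have f2 : ⌊u * (b : ℝ) ^ 2⌋ = -1 := by
      rw [Int.floor_eq_iff]
      push_cast
      constructor
      · linarith
      · have : 0 < (b : ℝ) ^ 2 := by positivity
        nlinarith
    rw [f1, f2]
    simp

/-- The main counting inequality for words. -/
lemma counting_words {ξ : ℝ} (b l W r M Q n : ℕ) (hb : 2 ≤ b) (hW : W < b ^ l)
    (hM : (b ^ l) ^ r ≤ M) (hMQ : b ^ 2 * Q ≤ 2 * M) (hQ0 : 0 < Q)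
    (hQ : ∀ q, 1 ≤ q → q ≤ (b ^ l) ^ r → q ∣ Q)
    (S : Finset ℕ) (hS : S ⊆ range M) (T : ℝ) (hT : ∀ m ∈ S, (occW b l W (m * ξ) n : ℝ) ≤ T) :
    (chg b (Q * ξ) n : ℝ) * (((b ^ l) ^ r : ℕ) * S.card) ≤
      ((b ^ l) ^ r : ℕ) * (S.card * (r * (T + r * l))) +
        12 * M * ((b ^ l - 1) ^ r : ℕ) * (chg b (Q * ξ) n) := by
  classical
  set B := b ^ l with hB
  set N := B ^ r with hN
  have hB1 : 1 ≤ B := Nat.one_le_pow _ _ (by omega)
  set Ch := (Icc 1 n).filter (fun k => dgb b (Q * ξ) k ≠ dgb b (Q * ξ) (k + 1)) with hCh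
  have hchg : chg b (Q * ξ) n = Ch.card := rfl
  set Av : ℕ → ℕ → Prop := fun k m => ∀ i < r,
      ⌊(m : ℝ) * (ξ * (b : ℝ) ^ (k - 1)) * (B : ℝ) ^ (i + 1)⌋ % (B : ℤ) ≠ W with hAv
  have hQR : (0 : ℝ) < Q := by exact_mod_cast hQ0
  have hbR : (2 : ℝ) ≤ b := by exact_mod_cast hb
  have h1 : ∀ k ∈ Ch, N * S.card ≤ N * (S.filter (fun m => ¬ Av k m)).card +
      12 * M * (B - 1) ^ r := by
    intro k hk
    rw [hCh, mem_filter, mem_Icc] at hk
    have hfr : ∀ z : ℤ, (Q : ℝ) ≤ 2 * M * |Q * (ξ * (b : ℝ) ^ (k - 1)) - z| := by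
      intro z
      have h2 := far_of_change hb hk.1.1 hk.2 z
      have h3 : (Q : ℝ) * ξ * (b : ℝ) ^ (k - 1) = Q * (ξ * (b : ℝ) ^ (k - 1)) := by ring
      rw [h3] at h2
      have h4 : (b : ℝ) ^ 2 * Q ≤ 2 * M := by exact_mod_cast hMQ
      have h5 := abs_nonneg ((Q : ℝ) * (ξ * (b : ℝ) ^ (k - 1)) - z)
      calc (Q : ℝ) = Q * 1 := (mul_one _).symm
        _ ≤ Q * ((b : ℝ) ^ 2 * |Q * (ξ * (b : ℝ) ^ (k - 1)) - z|) :=
            mul_le_mul_of_nonneg_left h2 hQR.le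
        _ = ((b : ℝ) ^ 2 * Q) * |Q * (ξ * (b : ℝ) ^ (k - 1)) - z| := by ring
        _ ≤ _ := mul_le_mul_of_nonneg_right h4 h5
    have h5 := count_avoid (ξ * (b : ℝ) ^ (k - 1)) B W r M Q hB1 hW hM hQ0 hQ hfr
    have h6 : S.card ≤ (S.filter (fun m => ¬ Av k m)).card +
        ((range M).filter (fun m : ℕ => Av k m)).card := by
      rw [← card_filter_add_card_filter_not (s := S) (fun m => Av k m), Nat.add_comm]
      refine Nat.add_le_add_left (card_le_card ?_) _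
      intro m hm
      rw [mem_filter] at hm ⊢
      exact ⟨hS hm.1, hm.2⟩
    calc N * S.card ≤ N * ((S.filter (fun m => ¬ Av k m)).card +
        ((range M).filter (fun m : ℕ => Av k m)).card) := Nat.mul_le_mul_left _ h6
      _ ≤ _ := by
        rw [Nat.mul_add]
        refine Nat.add_le_add_left ?_ _
        convert h5 using 2
  have h2 : Ch.card * (N * S.card) ≤
      N * ∑ k ∈ Ch, (S.filter (fun m => ¬ Av k m)).card + 12 * M * (B - 1) ^ r * Ch.card := by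
    calc Ch.card * (N * S.card) = ∑ _k ∈ Ch, N * S.card := by rw [sum_const, smul_eq_mul]
      _ ≤ ∑ k ∈ Ch, (N * (S.filter (fun m => ¬ Av k m)).card + 12 * M * (B - 1) ^ r) :=
          sum_le_sum h1
      _ = _ := by rw [sum_add_distrib, sum_const, smul_eq_mul, ← mul_sum, Nat.mul_comm Ch.card]
  have h3 : ∑ k ∈ Ch, (S.filter (fun m => ¬ Av k m)).card =
      ∑ m ∈ S, (Ch.filter (fun k => ¬ Av k m)).card := by
    simp only [card_filter]
    rw [sum_comm]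
  have h4 : ∀ m ∈ S, (((Ch.filter (fun k => ¬ Av k m)).card : ℕ) : ℝ) ≤ r * (T + r * l) := by
    intro m hm
    have h5 : Ch.filter (fun k => ¬ Av k m) ⊆ (range r).biUnion (fun i => (Icc 1 n).filter (fun k =>
        ⌊(m : ℝ) * ξ * (b : ℝ) ^ (k - 1 + l * i + l)⌋ % ((b ^ l : ℕ) : ℤ) = W)) := by
      intro k hk
      rw [mem_filter, hCh, mem_filter] at hk
      obtain ⟨⟨hk1, -⟩, hk2⟩ := hk
      rw [hAv] at hk2
      push Not at hk2
      obtain ⟨i, hi, h6⟩ := hk2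
      rw [mem_biUnion]
      refine ⟨i, mem_range.2 hi, ?_⟩
      rw [mem_filter]
      refine ⟨hk1, ?_⟩
      rw [← h6]
      congr 2
      rw [hB]
      push_cast
      rw [← pow_mul, Nat.mul_succ, mul_assoc, mul_assoc, mul_assoc, ← pow_add, Nat.add_assoc]
    have h6 : (Ch.filter (fun k => ¬ Av k m)).card ≤
        ∑ i ∈ range r, (occW b l W (m * ξ) n + r * l) := by
      refine (card_le_card h5).trans (card_biUnion_le.trans (sum_le_sum fun i hi => ?_))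
      have h7 := occW_shift b l W (m * ξ) n (l * i)
      have h8 : l * i ≤ r * l := by
        rw [Nat.mul_comm]; exact Nat.mul_le_mul_right _ (mem_range.1 hi).le
      omega
    rw [sum_const, card_range, smul_eq_mul] at h6
    have h7 : (((Ch.filter (fun k => ¬ Av k m)).card : ℕ) : ℝ) ≤
        r * (occW b l W (m * ξ) n + r * l) := by exact_mod_cast h6
    have h8 := hT m hm
    have h9 : (0 : ℝ) ≤ r := Nat.cast_nonneg _
    nlinarith
  have h5 : ((∑ k ∈ Ch, (S.filter (fun m => ¬ Av k m)).card : ℕ) : ℝ) ≤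
      S.card * (r * (T + r * l)) := by
    rw [h3]
    push_cast
    calc ∑ m ∈ S, (((Ch.filter (fun k => ¬ Av k m)).card : ℕ) : ℝ) ≤ ∑ m ∈ S, (r * (T + r * l)) :=
          sum_le_sum h4
      _ = _ := by rw [sum_const, nsmul_eq_mul]
  have h6 : (Ch.card : ℝ) * ((N : ℕ) * S.card) ≤
      (N : ℕ) * ((∑ k ∈ Ch, (S.filter (fun m => ¬ Av k m)).card : ℕ) : ℝ) +
        12 * M * ((B - 1) ^ r : ℕ) * Ch.card := by
    exact_mod_cast h2
  have h7 := mul_le_mul_of_nonneg_left h5 (Nat.cast_nonneg N : (0 : ℝ) ≤ (N : ℕ))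
  rw [hchg]
  linarith

end Pool.Agent.K7.H63.MR
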