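import Pool.Agent.K7.H63.MR.Rot3
import Pool.Agent.K7.H63.MR.Words

/-!
Matrices of digits in almost all vectors of multiples of a real number.
-/

set_option autoImplicit false

open Finset

namespace Pool.Agent.K7.H63.MR

/-- the vectors of numbers with `r` digits in base `B`, whose vectors of digits are all different
from `W` -/
def avoidV {R : ℕ} (B : ℕ) (W : Fin R → ℕ) : ℕ → Finset (Fin R → ℕ)
  | 0 => {fun _ => 0}
  | r + 1 => ((avoidV B W r) ×ˢ ((Fintype.piFinset fun _ : Fin R => range B).erase W)).image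
      (fun p j => p.1 j * B + p.2 j)

lemma card_avoidV {R : ℕ} (B : ℕ) (W : Fin R → ℕ) (hW : ∀ j, W j < B) (r : ℕ) :
    (avoidV B W r).card ≤ (B ^ R - 1) ^ r := by
  induction r with
  | zero => simp [avoidV]
  | succ r ih =>
    rw [avoidV, pow_succ]
    refine card_image_le.trans ?_
    rw [card_product, card_erase_of_mem (Fintype.mem_piFinset.2 fun j => mem_range.2 (hW j)),
      Fintype.card_piFinset_const, card_range]
    exact Nat.mul_le_mul_right _ ih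

lemma digit_step {B : ℕ} (hB : 1 ≤ B) (z : ℝ) (r : ℕ) : ∃ e : ℕ, e < B ∧
    (e : ℤ) = ⌊z * (B : ℝ) ^ (r + 1)⌋ % (B : ℤ) ∧
    ⌊Int.fract z * (B : ℝ) ^ r⌋₊ * B + e = ⌊Int.fract z * (B : ℝ) ^ (r + 1)⌋₊ := by
  have hBz : (0 : ℤ) < B := by exact_mod_cast hB
  have hBR : (0 : ℝ) < B := by exact_mod_cast hB
  have hG : ∀ r : ℕ, (⌊Int.fract z * (B : ℝ) ^ r⌋₊ : ℤ) = ⌊z * (B : ℝ) ^ r⌋ - B ^ r * ⌊z⌋ := by
    intro r
    rw [Int.natCast_floor_eq_floor (mul_nonneg (Int.fract_nonneg z) (by positivity))]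
    have : Int.fract z * (B : ℝ) ^ r = z * (B : ℝ) ^ r - ((B ^ r * ⌊z⌋ : ℤ) : ℝ) := by
      rw [Int.fract]; push_cast; ring
    rw [this, Int.floor_sub_intCast]
  have h2 := (floor_step B z r).resolve_right (by omega)
  have h3 := Int.emod_add_mul_ediv ⌊z * (B : ℝ) ^ (r + 1)⌋ B
  have h4 := Int.emod_nonneg ⌊z * (B : ℝ) ^ (r + 1)⌋ hBz.ne'
  have h5 := Int.emod_lt_of_pos ⌊z * (B : ℝ) ^ (r + 1)⌋ hBz
  rw [h2] at h3
  obtain ⟨e, he⟩ := Int.eq_ofNat_of_zero_le h4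
  refine ⟨e, ?_, he.symm, ?_⟩
  · rw [he] at h5
    exact_mod_cast h5
  · rw [he] at h3
    have h6 := hG (r + 1)
    have h7 := hG r
    have h8 : ((⌊Int.fract z * (B : ℝ) ^ r⌋₊ * B + e : ℕ) : ℤ) =
        (⌊Int.fract z * (B : ℝ) ^ (r + 1)⌋₊ : ℤ) := by
      push_cast
      rw [h6, h7, ← h3, pow_succ]
      ring
    exact_mod_cast h8

lemma mem_avoidV {R B : ℕ} {W : Fin R → ℕ} (hB : 1 ≤ B) (z : Fin R → ℝ) (r : ℕ)
    (h : ∀ i < r, ∃ j, ⌊z j * (B : ℝ) ^ (i + 1)⌋ % (B : ℤ) ≠ W j) :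
    (fun j => ⌊Int.fract (z j) * (B : ℝ) ^ r⌋₊) ∈ avoidV B W r := by
  induction r with
  | zero =>
    have : (fun j => ⌊Int.fract (z j) * (B : ℝ) ^ 0⌋₊) = fun _ : Fin R => 0 := by
      funext j
      rw [pow_zero, mul_one, Nat.floor_eq_zero]
      exact Int.fract_lt_one (z j)
    rw [this]
    simp [avoidV]
  | succ r ih =>
    have ih' := ih (fun i hi => h i (by omega))
    obtain ⟨j₁, h1⟩ := h r (by omega)
    choose e he1 he2 he3 using fun j => digit_step hB (z j) r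
    rw [avoidV, mem_image]
    refine ⟨(fun j => ⌊Int.fract (z j) * (B : ℝ) ^ r⌋₊, e), ?_, ?_⟩
    · rw [mem_product]
      refine ⟨ih', mem_erase.2 ⟨?_, Fintype.mem_piFinset.2 fun j => mem_range.2 (he1 j)⟩⟩
      intro h6
      exact h1 (by rw [← h6, ← he2])
    · funext j
      exact he3 j

open Classical in
/-- few vectors of multiples avoid the matrix in all the blocks -/
lemma count_avoidV {R : ℕ} (θ : ℝ) (y : Fin R → ℝ) (B : ℕ) (W : Fin R → ℕ) (r M Q : ℕ) (hB : 1 ≤ B)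
    (hW : ∀ j, W j < B) (hM : B ^ r ≤ M) (hQ0 : 0 < Q)
    (hQ : ∀ q, 1 ≤ q → q ≤ B ^ r → q ∣ Q) (hfr : ∀ z : ℤ, (Q : ℝ) ≤ 2 * M * |Q * θ - z|) :
    (B ^ r) ^ R * ((Fintype.piFinset fun _ : Fin R => range M).filter (fun m : Fin R → ℕ =>
      ∀ i < r, ∃ j, ⌊((m j : ℝ) * θ + y j) * (B : ℝ) ^ (i + 1)⌋ % (B : ℤ) ≠ W j)).card ≤
      (12 * M) ^ R * (B ^ R - 1) ^ r := by
  have hN : 1 ≤ B ^ r := Nat.one_le_pow _ _ hB
  have hNR : (0 : ℝ) < ((B ^ r : ℕ) : ℝ) := by exact_mod_cast hN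
  set G : (Fin R → ℕ) → Fin R → Finset ℕ := fun a j => (range M).filter (fun m : ℕ =>
    (a j : ℝ) / ((B ^ r : ℕ) : ℝ) ≤ Int.fract ((m : ℝ) * θ + y j) ∧
    Int.fract ((m : ℝ) * θ + y j) < (a j : ℝ) / ((B ^ r : ℕ) : ℝ) + 1 / ((B ^ r : ℕ) : ℝ)) with hG
  have hsub : (Fintype.piFinset fun _ : Fin R => range M).filter (fun m : Fin R → ℕ =>
      ∀ i < r, ∃ j, ⌊((m j : ℝ) * θ + y j) * (B : ℝ) ^ (i + 1)⌋ % (B : ℤ) ≠ W j) ⊆
      (avoidV B W r).biUnion (fun a => Fintype.piFinset (G a)) := by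
    intro m hm
    rw [mem_filter, Fintype.mem_piFinset] at hm
    rw [mem_biUnion]
    refine ⟨_, mem_avoidV hB (fun j => (m j : ℝ) * θ + y j) r hm.2, ?_⟩
    rw [Fintype.mem_piFinset]
    intro j
    rw [hG, mem_filter]
    have h0 : 0 ≤ Int.fract ((m j : ℝ) * θ + y j) * (B : ℝ) ^ r :=
      mul_nonneg (Int.fract_nonneg _) (by positivity)
    have h1 := Nat.floor_le h0
    have h2 := Nat.lt_floor_add_one (Int.fract ((m j : ℝ) * θ + y j) * (B : ℝ) ^ r)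
    have e : ((B ^ r : ℕ) : ℝ) = (B : ℝ) ^ r := by push_cast; rfl
    refine ⟨hm.1 j, ?_, ?_⟩
    · rw [div_le_iff₀ hNR, e]
      exact h1
    · rw [← add_div, lt_div_iff₀ hNR, e]
      exact h2
  have h1 := card_le_card hsub
  have h2 : ∀ a : Fin R → ℕ, (B ^ r) ^ R * (Fintype.piFinset (G a)).card ≤ (12 * M) ^ R := by
    intro a
    rw [Fintype.card_piFinset]
    calc (B ^ r) ^ R * ∏ j, (G a j).card = ∏ j : Fin R, (B ^ r * (G a j).card) := by
          rw [prod_mul_distrib, prod_const, card_univ, Fintype.card_fin]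
      _ ≤ ∏ _j : Fin R, (12 * M) := prod_le_prod' fun j _ =>
          rot3 θ (y j) _ (B ^ r) M Q hN hM hQ0 hQ hfr
      _ = (12 * M) ^ R := by rw [prod_const, card_univ, Fintype.card_fin]
  calc (B ^ r) ^ R * _ ≤ (B ^ r) ^ R * ∑ a ∈ avoidV B W r, (Fintype.piFinset (G a)).card :=
        Nat.mul_le_mul_left _ (h1.trans card_biUnion_le)
    _ = ∑ a ∈ avoidV B W r, (B ^ r) ^ R * (Fintype.piFinset (G a)).card := by rw [mul_sum]
    _ ≤ ∑ _a ∈ avoidV B W r, (12 * M) ^ R := sum_le_sum fun a _ => h2 a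
    _ = (avoidV B W r).card * (12 * M) ^ R := by rw [sum_const, smul_eq_mul]
    _ ≤ (B ^ R - 1) ^ r * (12 * M) ^ R := Nat.mul_le_mul_right _ (card_avoidV B W hW r)
    _ = (12 * M) ^ R * (B ^ R - 1) ^ r := Nat.mul_comm _ _

/-- the number of places `k` in `[0, n)` such that for all `j` the `l` digits of `x j` after the first
`k` digits form the word `W j` -/
noncomputable def occV {R : ℕ} (b l : ℕ) (W : Fin R → ℕ) (x : Fin R → ℝ) (n : ℕ) : ℕ :=
  ((range n).filter (fun k => ∀ j, ⌊x j * (b : ℝ) ^ (k + l)⌋ % ((b ^ l : ℕ) : ℤ) = W j)).card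

lemma occV_shift {R : ℕ} (b l : ℕ) (W : Fin R → ℕ) (x : Fin R → ℝ) (n i : ℕ) :
    ((Icc 1 n).filter (fun k => ∀ j, ⌊x j * (b : ℝ) ^ (k - 1 + i + l)⌋ %
      ((b ^ l : ℕ) : ℤ) = W j)).card ≤ occV b l W x n + i := by
  have h1 : ((Icc 1 n).filter (fun k => ∀ j,
      ⌊x j * (b : ℝ) ^ (k - 1 + i + l)⌋ % ((b ^ l : ℕ) : ℤ) = W j)).card ≤
      ((range (n + i)).filter (fun k => ∀ j,
        ⌊x j * (b : ℝ) ^ (k + l)⌋ % ((b ^ l : ℕ) : ℤ) = W j)).card := by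
    refine card_le_card_of_injOn (fun k => k - 1 + i) ?_ ?_
    · intro k hk
      rw [mem_coe, mem_filter, mem_Icc] at hk
      simp only [mem_coe, mem_filter, mem_range]
      exact ⟨by omega, hk.2⟩
    · intro u hu v hv h
      rw [mem_coe, mem_filter, mem_Icc] at hu hv
      simp only at h
      omega
  have h2 : (range (n + i)).filter (fun k => ∀ j,
      ⌊x j * (b : ℝ) ^ (k + l)⌋ % ((b ^ l : ℕ) : ℤ) = W j) ⊆
      (range n).filter (fun k => ∀ j, ⌊x j * (b : ℝ) ^ (k + l)⌋ % ((b ^ l : ℕ) : ℤ) = W j) ∪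
        Ico n (n + i) := by
    intro k hk
    rw [mem_filter, mem_range] at hk
    rw [mem_union, mem_filter, mem_range, mem_Ico]
    by_cases h : k < n
    · exact Or.inl ⟨h, hk.2⟩
    · exact Or.inr ⟨by omega, hk.1⟩
  have h3 := (card_le_card h2).trans (card_union_le _ _)
  rw [Nat.card_Ico] at h3
  unfold occV
  omega

/-- The main counting inequality for matrices. -/
lemma counting_vec {R : ℕ} {ξ : ℝ} (y : Fin R → ℝ) (b l : ℕ) (W : Fin R → ℕ) (r M Q n : ℕ)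
    (hb : 2 ≤ b) (hW : ∀ j, W j < b ^ l)
    (hM : (b ^ l) ^ r ≤ M) (hMQ : b ^ 2 * Q ≤ 2 * M) (hQ0 : 0 < Q)
    (hQ : ∀ q, 1 ≤ q → q ≤ (b ^ l) ^ r → q ∣ Q)
    (S : Finset (Fin R → ℕ)) (hS : S ⊆ Fintype.piFinset fun _ => range M) (T : ℝ)
    (hT : ∀ m ∈ S, (occV b l W (fun j => m j * ξ + y j) n : ℝ) ≤ T) :
    (chg b (Q * ξ) n : ℝ) * ((((b ^ l) ^ r) ^ R : ℕ) * S.card) ≤
      (((b ^ l) ^ r) ^ R : ℕ) * (S.card * (r * (T + r * l))) +
        (12 * M) ^ R * (((b ^ l) ^ R - 1) ^ r : ℕ) * (chg b (Q * ξ) n) := by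
  classical
  set B := b ^ l with hB
  set N := (B ^ r) ^ R with hN
  have hB1 : 1 ≤ B := Nat.one_le_pow _ _ (by omega)
  set Ch := (Icc 1 n).filter (fun k => dgb b (Q * ξ) k ≠ dgb b (Q * ξ) (k + 1)) with hCh
  have hchg : chg b (Q * ξ) n = Ch.card := rfl
  set Av : ℕ → (Fin R → ℕ) → Prop := fun k m => ∀ i < r, ∃ j,
      ⌊((m j : ℝ) * (ξ * (b : ℝ) ^ (k - 1)) + y j * (b : ℝ) ^ (k - 1)) *
        (B : ℝ) ^ (i + 1)⌋ % (B : ℤ) ≠ W j with hAv
  have hQR : (0 : ℝ) < Q := by exact_mod_cast hQ0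
  have hbR : (2 : ℝ) ≤ b := by exact_mod_cast hb
  have h1 : ∀ k ∈ Ch, N * S.card ≤ N * (S.filter (fun m => ¬ Av k m)).card +
      (12 * M) ^ R * (B ^ R - 1) ^ r := by
    intro k hk
    rw [hCh, mem_filter, mem_Icc] at hk
    have hfr : ∀ z : ℤ, (Q : ℝ) ≤ 2 * M * |Q * (ξ * (b : ℝ) ^ (k - 1)) - z| := by
      intro z
      have h2 := far_of_change hb hk.1.1 hk.2 z
      have h3 : (Q : ℝ) * ξ * (b : ℝ) ^ (k - 1) = Q * (ξ * (b : ℝ) ^ (k - 1)) := by ring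
      rw [h3] at h2
      have h4 : (b : ℝ) ^ 2 * Q ≤ 2 * M := by exact_mod_cast hMQ
      have h5 := abs_nonneg ((Q : ℝ) * (ξ * (b : ℝ) ^ (k - 1)) - z)
      calc (Q : ℝ) = Q * 1 := (mul_one _).symm
        _ ≤ Q * ((b : ℝ) ^ 2 * |Q * (ξ * (b : ℝ) ^ (k - 1)) - z|) :=
            mul_le_mul_of_nonneg_left h2 hQR.le
        _ = ((b : ℝ) ^ 2 * Q) * |Q * (ξ * (b : ℝ) ^ (k - 1)) - z| := by ring
        _ ≤ _ := mul_le_mul_of_nonneg_right h4 h5
    have h5 := count_avoidV (ξ * (b : ℝ) ^ (k - 1)) (fun j => y j * (b : ℝ) ^ (k - 1)) B W r M Q hB1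
      hW hM hQ0 hQ hfr
    have h6 : S.card ≤ (S.filter (fun m => ¬ Av k m)).card +
        ((Fintype.piFinset fun _ : Fin R => range M).filter (fun m : Fin R → ℕ => Av k m)).card := by
      rw [← card_filter_add_card_filter_not (s := S) (fun m => Av k m), Nat.add_comm]
      refine Nat.add_le_add_left (card_le_card ?_) _
      intro m hm
      rw [mem_filter] at hm ⊢
      exact ⟨hS hm.1, hm.2⟩
    calc N * S.card ≤ N * ((S.filter (fun m => ¬ Av k m)).card +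
        ((Fintype.piFinset fun _ : Fin R => range M).filter (fun m : Fin R → ℕ => Av k m)).card) :=
          Nat.mul_le_mul_left _ h6
      _ ≤ _ := by
        rw [Nat.mul_add]
        refine Nat.add_le_add_left ?_ _
        convert h5 using 2
  have h2 : Ch.card * (N * S.card) ≤
      N * ∑ k ∈ Ch, (S.filter (fun m => ¬ Av k m)).card +
        (12 * M) ^ R * (B ^ R - 1) ^ r * Ch.card := by
    calc Ch.card * (N * S.card) = ∑ _k ∈ Ch, N * S.card := by rw [sum_const, smul_eq_mul]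
      _ ≤ ∑ k ∈ Ch, (N * (S.filter (fun m => ¬ Av k m)).card + (12 * M) ^ R * (B ^ R - 1) ^ r) :=
          sum_le_sum h1
      _ = _ := by rw [sum_add_distrib, sum_const, smul_eq_mul, ← mul_sum, Nat.mul_comm Ch.card]
  have h3 : ∑ k ∈ Ch, (S.filter (fun m => ¬ Av k m)).card =
      ∑ m ∈ S, (Ch.filter (fun k => ¬ Av k m)).card := by
    simp only [card_filter]
    rw [sum_comm]
  have h4 : ∀ m ∈ S, (((Ch.filter (fun k => ¬ Av k m)).card : ℕ) : ℝ) ≤ r * (T + r * l) := by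
    intro m hm
    have h5 : Ch.filter (fun k => ¬ Av k m) ⊆ (range r).biUnion (fun i => (Icc 1 n).filter (fun k =>
        ∀ j, ⌊((m j : ℝ) * ξ + y j) * (b : ℝ) ^ (k - 1 + l * i + l)⌋ %
          ((b ^ l : ℕ) : ℤ) = W j)) := by
      intro k hk
      rw [mem_filter, hCh, mem_filter] at hk
      obtain ⟨⟨hk1, -⟩, hk2⟩ := hk
      rw [hAv] at hk2
      push Not at hk2
      obtain ⟨i, hi, h6⟩ := hk2
      rw [mem_biUnion]
      refine ⟨i, mem_range.2 hi, ?_⟩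
      rw [mem_filter]
      refine ⟨hk1, fun j => ?_⟩
      rw [← h6 j]
      congr 2
      rw [hB]
      push_cast
      rw [← pow_mul, Nat.mul_succ, ← mul_assoc, ← add_mul, mul_assoc, ← pow_add, Nat.add_assoc]
    have h6 : (Ch.filter (fun k => ¬ Av k m)).card ≤
        ∑ i ∈ range r, (occV b l W (fun j => m j * ξ + y j) n + r * l) := by
      refine (card_le_card h5).trans (card_biUnion_le.trans (sum_le_sum fun i hi => ?_))
      have h7 := occV_shift b l W (fun j => m j * ξ + y j) n (l * i)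
      have h8 : l * i ≤ r * l := by
        rw [Nat.mul_comm]; exact Nat.mul_le_mul_right _ (mem_range.1 hi).le
      omega
    rw [sum_const, card_range, smul_eq_mul] at h6
    have h7 : (((Ch.filter (fun k => ¬ Av k m)).card : ℕ) : ℝ) ≤
        r * (occV b l W (fun j => m j * ξ + y j) n + r * l) := by exact_mod_cast h6
    have h8 := hT m hm
    have h9 : (0 : ℝ) ≤ r := Nat.cast_nonneg _
    nlinarith
  have h5 : ((∑ k ∈ Ch, (S.filter (fun m => ¬ Av k m)).card : ℕ) : ℝ) ≤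
      S.card * (r * (T + r * l)) := by
    rw [h3]
    push_cast
    calc ∑ m ∈ S, (((Ch.filter (fun k => ¬ Av k m)).card : ℕ) : ℝ) ≤ ∑ m ∈ S, (r * (T + r * l)) :=
          sum_le_sum h4
      _ = _ := by rw [sum_const, nsmul_eq_mul]
  have h6 : (Ch.card : ℝ) * ((N : ℕ) * S.card) ≤
      (N : ℕ) * ((∑ k ∈ Ch, (S.filter (fun m => ¬ Av k m)).card : ℕ) : ℝ) +
        (12 * M) ^ R * ((B ^ R - 1) ^ r : ℕ) * Ch.card := by
    exact_mod_cast h2
  have h7 := mul_le_mul_of_nonneg_left h5 (Nat.cast_nonneg N : (0 : ℝ) ≤ (N : ℕ))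
  rw [hchg]
  linarith

end Pool.Agent.K7.H63.MR
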