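import Pool.Agent.K7.H63.MR.Vec

/-!
Matrices of digits in almost all vectors of multiples: the general theorem.
-/

set_option autoImplicit false

open Finset

namespace Pool.Agent.K7.H63.MR

/-- Matrices of digits in almost all vectors of multiples of `ξ`, if all `Q ξ` have many changes of
digits. -/
theorem vec_almost {b : ℕ} (hb : 2 ≤ b) {R : ℕ} (l : ℕ) (W : Fin R → ℕ) (hW : ∀ j, W j < b ^ l)
    (ξ : ℝ) (F : ℕ → ℝ) (hF : Filter.Tendsto F Filter.atTop Filter.atTop)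
    (hch : ∀ Q : ℕ, 1 ≤ Q → ∃ c : ℝ, 0 < c ∧ ∀ᶠ n : ℕ in Filter.atTop,
      c * F n ≤ (chg b (Q * ξ) n : ℝ)) (ε : ℝ) (hε : 0 < ε) :
    ∃ c : ℝ, 0 < c ∧ ∃ M₀ n₀ : ℕ, ∀ M n : ℕ, M₀ ≤ M → n₀ ≤ n → ∀ y : Fin R → ℝ,
      (((Fintype.piFinset fun _ : Fin R => range M).filter (fun m : Fin R → ℕ =>
        (occV b l W (fun j => m j * ξ + y j) n : ℝ) < c * F n)).card : ℝ) ≤ ε * (M : ℝ) ^ R := by
  classical
  set B := b ^ l with hB
  have hB1 : 1 ≤ B := Nat.one_le_pow _ _ (by omega)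
  have hBR1 : 1 ≤ B ^ R := Nat.one_le_pow _ _ hB1
  have hBR : (1 : ℝ) ≤ ((B ^ R : ℕ) : ℝ) := by exact_mod_cast hBR1
  -- choice of `r`
  obtain ⟨r, hr⟩ : ∃ r : ℕ, ((B ^ R - 1 : ℕ) : ℝ) ^ r * (2 * 12 ^ R) ≤
      ε * ((B ^ R : ℕ) : ℝ) ^ r := by
    have h1 : ((B ^ R - 1 : ℕ) : ℝ) / ((B ^ R : ℕ) : ℝ) < 1 := by
      rw [div_lt_one (by linarith)]
      have : B ^ R - 1 < B ^ R := by omega
      exact_mod_cast this
    obtain ⟨r, hr⟩ := exists_pow_lt_of_lt_one (show (0 : ℝ) < ε / (2 * 12 ^ R) by positivity) h1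
    refine ⟨r, ?_⟩
    rw [div_pow, div_lt_iff₀ (by positivity), div_mul_eq_mul_div, lt_div_iff₀ (by positivity)] at hr
    exact hr.le
  obtain ⟨Q, hQdef⟩ : ∃ Q : ℕ, Q = (B ^ r).factorial := ⟨_, rfl⟩
  have hQ0 : 0 < Q := by rw [hQdef]; exact Nat.factorial_pos _
  have hQ : ∀ q, 1 ≤ q → q ≤ B ^ r → q ∣ Q := by
    intro q h1 h2
    rw [hQdef]
    exact Nat.dvd_factorial (by omega) h2
  obtain ⟨c₁, hc₁, hev⟩ := hch Q hQ0
  -- growth
  have hgrow : ∀ᶠ n : ℕ in Filter.atTop, 4 * ((r : ℝ) * (r * l)) + 1 ≤ c₁ * F n := by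
    filter_upwards [hF.eventually_ge_atTop ((4 * ((r : ℝ) * (r * l)) + 1) / c₁)] with n hn
    rw [div_le_iff₀ hc₁] at hn
    linarith
  obtain ⟨n₀, hn₀⟩ := Filter.eventually_atTop.1 (hev.and hgrow)
  refine ⟨c₁ / (8 * (r + 1)), by positivity, B ^ r + b ^ 2 * Q + 1, n₀, ?_⟩
  intro M n hM hn y
  obtain ⟨hch, hgr⟩ := hn₀ n hn
  set S := (Fintype.piFinset fun _ : Fin R => range M).filter (fun m : Fin R → ℕ =>
        (occV b l W (fun j => m j * ξ + y j) n : ℝ) < c₁ / (8 * (r + 1)) * F n) with hS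
  by_contra hcon
  push Not at hcon
  have hMpos : 0 < M := by omega
  have hMR : (0 : ℝ) < M := by exact_mod_cast hMpos
  have hcount := counting_vec (ξ := ξ) y b l W r M Q n hb hW (by rw [← hB]; omega)
    (by have : b ^ 2 * Q ≤ M := by omega
        omega) hQ0 hQ S (filter_subset _ _)
    (c₁ / (8 * (r + 1)) * F n) (fun m hm => by
      rw [hS, mem_filter] at hm
      exact hm.2.le)
  rw [← hB] at hcount
  set x : ℝ := (chg b (Q * ξ) n : ℝ) with hx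
  set s : ℝ := (S.card : ℝ) with hs
  have hspos : 0 < s := lt_of_le_of_lt (by positivity) hcon
  have hN : (0 : ℝ) < (((B ^ r) ^ R : ℕ) : ℝ) := by
    have : 0 < (B ^ r) ^ R := Nat.pow_pos (Nat.pow_pos (by omega))
    exact_mod_cast this
  have hx1 : c₁ * F n ≤ x := hch
  have hx0 : 0 ≤ x := Nat.cast_nonneg _
  -- the exceptional part
  have h1 : (12 * (M : ℝ)) ^ R * (((B ^ R - 1) ^ r : ℕ) : ℝ) ≤ (((B ^ r) ^ R : ℕ) : ℝ) * s / 2 := by
    have hpos : (0 : ℝ) ≤ (((B ^ R : ℕ) : ℝ)) ^ r := by positivity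
    have h2 : ε * (((B ^ R : ℕ) : ℝ)) ^ r * (M : ℝ) ^ R ≤ s * (((B ^ R : ℕ) : ℝ)) ^ r := by
      have := mul_le_mul_of_nonneg_right hcon.le hpos
      linarith
    have h3 := mul_le_mul_of_nonneg_right hr (pow_pos hMR R).le
    have e1 : (((B ^ R - 1) ^ r : ℕ) : ℝ) = ((B ^ R - 1 : ℕ) : ℝ) ^ r := by push_cast; rfl
    have e2 : (((B ^ r) ^ R : ℕ) : ℝ) = ((B ^ R : ℕ) : ℝ) ^ r := by
      push_cast
      rw [← pow_mul, ← pow_mul, Nat.mul_comm]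
    rw [e1, e2, mul_pow]
    linarith
  have h2 : (12 * (M : ℝ)) ^ R * (((B ^ R - 1) ^ r : ℕ) : ℝ) * x ≤
      (((B ^ r) ^ R : ℕ) : ℝ) * s / 2 * x := mul_le_mul_of_nonneg_right h1 hx0
  have h3 : ((((B ^ r) ^ R : ℕ) : ℝ) * s) * x ≤ ((((B ^ r) ^ R : ℕ) : ℝ) * s) *
      (2 * (r * (c₁ / (8 * (r + 1)) * F n + r * l))) := by
    nlinarith
  have h4 : x ≤ 2 * (r * (c₁ / (8 * (r + 1)) * F n + r * l)) :=
    le_of_mul_le_mul_left h3 (by positivity)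
  have hLn : 0 < c₁ * F n := by
    have : (0 : ℝ) ≤ 4 * ((r : ℝ) * (r * l)) := by positivity
    linarith
  have h5 : (r : ℝ) * (c₁ / (8 * (r + 1)) * F n) ≤ c₁ * F n / 8 := by
    have h6 : (r : ℝ) * (c₁ / (8 * (r + 1)) * F n) = (c₁ * F n / 8) * (r / (r + 1)) := by
      field_simp
    rw [h6]
    have h7 : (r : ℝ) / (r + 1) ≤ 1 := by
      rw [div_le_one (by positivity)]; linarith
    calc (c₁ * F n / 8) * (r / (r + 1)) ≤ (c₁ * F n / 8) * 1 :=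
          mul_le_mul_of_nonneg_left h7 (by linarith)
      _ = _ := mul_one _
  nlinarith

end Pool.Agent.K7.H63.MR
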