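import Pool.Agent.K7.H63.MR.Vec
import Pool.Agent.K7.H63.MR.Val

/-!
Matrices of digits in almost all vectors of multiples: the inequality at one place `n`.
-/

set_option autoImplicit false

open Finset

namespace Pool.Agent.K7.H63.MR

/-- Matrices of digits in almost all vectors of multiples of `ξ`, if `Q ξ` has `X` changes of
digits up to `n`. -/
theorem vec_at {b : ℕ} (hb : 2 ≤ b) (R l q₀ : ℕ) (hq₀ : 1 ≤ q₀) (ε : ℝ) (hε : 0 < ε) :
    ∃ Q r M₀ : ℕ, 1 ≤ Q ∧ q₀ ∣ Q ∧ ∀ (W : Fin R → ℕ), (∀ j, W j < b ^ l) → ∀ (ξ X : ℝ) (n : ℕ),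
      4 * ((r : ℝ) * (r * l)) + 1 ≤ X → X ≤ (chg b (Q * ξ) n : ℝ) → ∀ M : ℕ, M₀ ≤ M →
      ∀ y : Fin R → ℝ,
      (((Fintype.piFinset fun _ : Fin R => range M).filter (fun m : Fin R → ℕ =>
        (occV b l W (fun j => m j * ξ + y j) n : ℝ) < X / (8 * (r + 1)))).card : ℝ) ≤
          ε * (M : ℝ) ^ R := by
  classical
  set B := b ^ l with hB
  have hB1 : 1 ≤ B := Nat.one_le_pow _ _ (by omega)
  have hBR1 : 1 ≤ B ^ R := Nat.one_le_pow _ _ hB1
  have hBR : (1 : ℝ) ≤ ((B ^ R : ℕ) : ℝ) := by exact_mod_cast hBR1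
  -- choice of `r`
  obtain ⟨r, hr⟩ : ∃ r : ℕ, ((B ^ R - 1 : ℕ) : ℝ) ^ r * (2 * 12 ^ R) ≤
      ε * ((B ^ R : ℕ) : ℝ) ^ r := by
    have h1 : ((B ^ R - 1 : ℕ) : ℝ) / ((B ^ R : ℕ) : ℝ) < 1 := by
      rw [div_lt_one (by linarith)]
      have : B ^ R - 1 < B ^ R := by omega
      exact_mod_cast this
    obtain ⟨r, hr⟩ := exists_pow_lt_of_lt_one (show (0 : ℝ) < ε / (2 * 12 ^ R) by positivity) h1
    refine ⟨r, ?_⟩
    rw [div_pow, div_lt_iff₀ (by positivity), div_mul_eq_mul_div, lt_div_iff₀ (by positivity)] at hr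
    exact hr.le
  obtain ⟨Q, hQdef⟩ : ∃ Q : ℕ, Q = (B ^ r).factorial * q₀ := ⟨_, rfl⟩
  have hQ0 : 0 < Q := by rw [hQdef]; exact Nat.mul_pos (Nat.factorial_pos _) (by omega)
  have hQ : ∀ q, 1 ≤ q → q ≤ B ^ r → q ∣ Q := by
    intro q h1 h2
    rw [hQdef]
    exact Dvd.dvd.mul_right (Nat.dvd_factorial (by omega) h2) _
  refine ⟨Q, r, B ^ r + b ^ 2 * Q + 1, hQ0, ⟨(B ^ r).factorial, by rw [hQdef, Nat.mul_comm]⟩, ?_⟩
  intro W hW ξ X n hX1 hX2 M hM y
  set S := (Fintype.piFinset fun _ : Fin R => range M).filter (fun m : Fin R → ℕ =>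
        (occV b l W (fun j => m j * ξ + y j) n : ℝ) < X / (8 * (r + 1))) with hS
  by_contra hcon
  push Not at hcon
  have hMpos : 0 < M := by omega
  have hMR : (0 : ℝ) < M := by exact_mod_cast hMpos
  have hcount := counting_vec (ξ := ξ) y b l W r M Q n hb hW (by rw [← hB]; omega)
    (by have : b ^ 2 * Q ≤ M := by omega
        omega) hQ0 hQ S (filter_subset _ _)
    (X / (8 * (r + 1))) (fun m hm => by
      rw [hS, mem_filter] at hm
      exact hm.2.le)
  rw [← hB] at hcount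
  set x : ℝ := (chg b (Q * ξ) n : ℝ) with hx
  set s : ℝ := (S.card : ℝ) with hs
  have hspos : 0 < s := lt_of_le_of_lt (by positivity) hcon
  have hN : (0 : ℝ) < (((B ^ r) ^ R : ℕ) : ℝ) := by
    have : 0 < (B ^ r) ^ R := Nat.pow_pos (Nat.pow_pos (by omega))
    exact_mod_cast this
  have hx0 : 0 ≤ x := Nat.cast_nonneg _
  -- the exceptional part
  have h1 : (12 * (M : ℝ)) ^ R * (((B ^ R - 1) ^ r : ℕ) : ℝ) ≤ (((B ^ r) ^ R : ℕ) : ℝ) * s / 2 := by
    have hpos : (0 : ℝ) ≤ (((B ^ R : ℕ) : ℝ)) ^ r := by positivity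
    have h2 : ε * (((B ^ R : ℕ) : ℝ)) ^ r * (M : ℝ) ^ R ≤ s * (((B ^ R : ℕ) : ℝ)) ^ r := by
      have := mul_le_mul_of_nonneg_right hcon.le hpos
      linarith
    have h3 := mul_le_mul_of_nonneg_right hr (pow_pos hMR R).le
    have e1 : (((B ^ R - 1) ^ r : ℕ) : ℝ) = ((B ^ R - 1 : ℕ) : ℝ) ^ r := by push_cast; rfl
    have e2 : (((B ^ r) ^ R : ℕ) : ℝ) = ((B ^ R : ℕ) : ℝ) ^ r := by
      push_cast
      rw [← pow_mul, ← pow_mul, Nat.mul_comm]
    rw [e1, e2, mul_pow]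
    linarith
  have h2 : (12 * (M : ℝ)) ^ R * (((B ^ R - 1) ^ r : ℕ) : ℝ) * x ≤
      (((B ^ r) ^ R : ℕ) : ℝ) * s / 2 * x := mul_le_mul_of_nonneg_right h1 hx0
  have h3 : ((((B ^ r) ^ R : ℕ) : ℝ) * s) * x ≤ ((((B ^ r) ^ R : ℕ) : ℝ) * s) *
      (2 * (r * (X / (8 * (r + 1)) + r * l))) := by
    nlinarith
  have h4 : x ≤ 2 * (r * (X / (8 * (r + 1)) + r * l)) :=
    le_of_mul_le_mul_left h3 (by positivity)
  have hLn : 0 < X := by
    have : (0 : ℝ) ≤ 4 * ((r : ℝ) * (r * l)) := by positivity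
    linarith
  have h5 : (r : ℝ) * (X / (8 * (r + 1))) ≤ X / 8 := by
    have h6 : (r : ℝ) * (X / (8 * (r + 1))) = (X / 8) * (r / (r + 1)) := by
      field_simp
    rw [h6]
    have h7 : (r : ℝ) / (r + 1) ≤ 1 := by
      rw [div_le_one (by positivity)]; linarith
    calc (X / 8) * (r / (r + 1)) ≤ (X / 8) * 1 :=
          mul_le_mul_of_nonneg_left h7 (by linarith)
      _ = _ := mul_one _
  nlinarith

/-- the number of the places `i` in `[1, N]` such that for every row `j` the digits of `ξ j` at the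
places `i, i + 1, …, i + l - 1` after the point are `D j 0, D j 1, …, D j (l - 1)` -/
noncomputable def occD {R l : ℕ} (b : ℕ) (D : Fin R → Fin l → Fin b) (N : ℕ)
    (ξ : Fin R → ℝ) : ℕ :=
  ((Icc 1 N).filter (fun i => ∀ (j : Fin R) (t : Fin l), dgb b (ξ j) (i + t) = (D j t : ℕ))).card

open Classical in
/-- All the matrices of digits at the same time. -/
theorem mat_at {b : ℕ} (hb : 2 ≤ b) (R l q₀ : ℕ) (hq₀ : 1 ≤ q₀) (ε : ℝ) (hε : 0 < ε) :
    ∃ Q r M₀ : ℕ, 1 ≤ Q ∧ q₀ ∣ Q ∧ ∀ (ξ X : ℝ) (n : ℕ),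
      4 * ((r : ℝ) * (r * l)) + 1 ≤ X → X ≤ (chg b (Q * ξ) n : ℝ) → ∀ M : ℕ, M₀ ≤ M →
      ∀ y : Fin R → ℝ,
      (1 - ε) * (M : ℝ) ^ R ≤
        (((Fintype.piFinset fun _ : Fin R => Icc 1 M).filter (fun m : Fin R → ℕ =>
          ∀ D : Fin R → Fin l → Fin b, X / (8 * (r + 1)) ≤
            occD b D n (fun j => m j * ξ + y j))).card : ℝ) := by
  have hbpos : 0 < b := by omega
  set K : ℕ := Fintype.card (Fin R → Fin l → Fin b) with hK
  have hKpos : 0 < K := by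
    have : Nonempty (Fin R → Fin l → Fin b) := ⟨fun _ _ => ⟨0, hbpos⟩⟩
    exact Fintype.card_pos
  have hKR : (0 : ℝ) < K := by exact_mod_cast hKpos
  obtain ⟨Q, r, M₀, hQ, hdvd, H⟩ := vec_at hb R l q₀ hq₀ (ε / K) (by positivity)
  refine ⟨Q, r, M₀, hQ, hdvd, ?_⟩
  intro ξ X n hX1 hX2 M hM y
  -- the word of a row
  set w : (Fin R → Fin l → Fin b) → Fin R → ℕ → ℕ := fun D j t =>
    if h : t < l then (D j ⟨t, h⟩ : ℕ) else 0 with hw
  have hwlt : ∀ D j, ∀ t < l, w D j t < b := by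
    intro D j t ht
    simp only [hw, dif_pos ht]
    exact (D j ⟨t, ht⟩).2
  set G := (Fintype.piFinset fun _ : Fin R => Icc 1 M).filter (fun m : Fin R → ℕ =>
          ∀ D : Fin R → Fin l → Fin b, X / (8 * (r + 1)) ≤
            occD b D n (fun j => m j * ξ + y j)) with hG
  set Bd : (Fin R → Fin l → Fin b) → Finset (Fin R → ℕ) := fun D =>
    (Fintype.piFinset fun _ : Fin R => range M).filter (fun m : Fin R → ℕ =>
        (occV b l (fun j => val b (w D j) l)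
          (fun j => m j * ξ + (y j + ξ)) n : ℝ) < X / (8 * (r + 1))) with hBd
  have hBdcard : ∀ D, ((Bd D).card : ℝ) ≤ ε / K * (M : ℝ) ^ R := fun D =>
    H _ (fun j => val_lt (hwlt D j) l le_rfl) ξ X n hX1 hX2 M hM (fun j => y j + ξ)
  have hsub : (Fintype.piFinset fun _ : Fin R => Icc 1 M) ⊆
      G ∪ univ.biUnion (fun D => (Bd D).image (fun m j => m j + 1)) := by
    intro m hm
    rw [mem_union]
    by_contra hcon
    push Not at hcon
    obtain ⟨h1, h2⟩ := hcon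
    apply h1
    rw [hG, mem_filter]
    refine ⟨hm, fun D => ?_⟩
    rw [Fintype.mem_piFinset] at hm
    by_contra h3
    push Not at h3
    apply h2
    rw [mem_biUnion]
    refine ⟨D, mem_univ D, ?_⟩
    rw [mem_image]
    have hm1 : ∀ j, m j - 1 + 1 = m j := fun j => by
      have := mem_Icc.1 (hm j)
      omega
    refine ⟨fun j => m j - 1, ?_, funext hm1⟩
    rw [hBd, mem_filter, Fintype.mem_piFinset]
    refine ⟨fun j => mem_range.2 (by have := mem_Icc.1 (hm j); omega), ?_⟩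
    have e1 : (fun j => (((m j - 1 : ℕ)) : ℝ) * ξ + (y j + ξ)) = fun j => (m j : ℝ) * ξ + y j := by
      funext j
      have : (((m j - 1 : ℕ)) : ℝ) + 1 = m j := by exact_mod_cast hm1 j
      rw [← this]
      ring
    rw [e1]
    have h4 : occV b l (fun j => val b (w D j) l)
        (fun j => (m j : ℝ) * ξ + y j) n ≤ occD b D n (fun j => m j * ξ + y j) := by
      unfold occV occD
      refine card_le_card_of_injOn (fun k => k + 1) ?_ ?_
      · intro k hk
        rw [mem_coe, mem_filter, mem_range] at hk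
        simp only [mem_coe, mem_filter, mem_Icc]
        refine ⟨⟨by omega, by omega⟩, fun j t => ?_⟩
        have h5 := digits_of_val hb (hwlt D j) _ k (hk.2 j) t t.2
        have h6 : w D j t = (D j t : ℕ) := by
          simp only [hw, dif_pos t.2]
        rw [h6] at h5
        exact h5
      · intro u _ v _ h
        simpa using h
    have h5 : (occV b l (fun j => val b (w D j) l)
        (fun j => (m j : ℝ) * ξ + y j) n : ℝ) ≤ occD b D n (fun j => m j * ξ + y j) := by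
      exact_mod_cast h4
    exact lt_of_le_of_lt h5 h3
  have hcard := (card_le_card hsub).trans (card_union_le _ _)
  have hcard2 : (univ.biUnion (fun D => (Bd D).image (fun (m : Fin R → ℕ) j => m j + 1))).card ≤
      ∑ D, (Bd D).card :=
    card_biUnion_le.trans (sum_le_sum fun D _ => card_image_le)
  rw [Fintype.card_piFinset_const, Nat.card_Icc, Nat.add_sub_cancel] at hcard
  have h1 : (M : ℝ) ^ R ≤ G.card + ∑ D, ((Bd D).card : ℝ) := by
    have : M ^ R ≤ G.card + ∑ D, (Bd D).card := by omega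
    exact_mod_cast this
  have h2 : ∑ D : Fin R → Fin l → Fin b, ((Bd D).card : ℝ) ≤ ε * (M : ℝ) ^ R := by
    calc ∑ D, ((Bd D).card : ℝ) ≤ ∑ _D : Fin R → Fin l → Fin b, ε / K * (M : ℝ) ^ R :=
          sum_le_sum fun D _ => hBdcard D
      _ = K * (ε / K * (M : ℝ) ^ R) := by rw [sum_const, card_univ, nsmul_eq_mul]
      _ = ε * (M : ℝ) ^ R := by field_simp
  linarith

end Pool.Agent.K7.H63.MR
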