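import Pool.Agent.K7.H63.MR.Cov
import Pool.Agent.K7.H63.MR.Rot

/-!
Windows of places which contain a one, and the ones of almost all multiples of `ξ`.
-/

set_option autoImplicit false

open Finset

namespace Pool.Agent.K7.H63.MR

open Classical in
/-- the places up to `n` which are followed, within `t` places, by a one -/
noncomputable def Win (a : ℕ → ℕ) (n t : ℕ) : Finset ℕ :=
  (Icc 1 n).filter (fun k => ∃ s, k ≤ s ∧ s < k + t ∧ s ≤ n ∧ a s = 1)

lemma mem_Win {a : ℕ → ℕ} {n t k : ℕ} : k ∈ Win a n t ↔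
    (1 ≤ k ∧ k ≤ n) ∧ ∃ s, k ≤ s ∧ s < k + t ∧ s ≤ n ∧ a s = 1 := by
  classical
  unfold Win
  rw [mem_filter, mem_Icc]

lemma winCover (a : ℕ → ℕ) (t : ℕ) (ht : 1 ≤ t) (n : ℕ) :
    ∃ (K : ℕ) (u w : ℕ → ℕ), (∀ i < K, u i ≤ w i) ∧
      (∀ k, 1 ≤ k → k ≤ n → a k = 1 → ∃ i < K, u i ≤ k ∧ k ≤ w i) ∧
      ∑ i ∈ range K, (w i + 1 - u i) ≤ (Win a n t).card ∧
      K * t ≤ (Win a n t).card + t := by
  induction n using Nat.strong_induction_on with
  | _ n ih =>
  set S := (Icc 1 n).filter (fun k => a k = 1) with hS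
  rcases S.eq_empty_or_nonempty with hemp | hne
  · refine ⟨0, fun _ => 0, fun _ => 0, by simp, ?_, by simp, by simp⟩
    intro k h1 h2 h3
    have : k ∈ S := by rw [hS, mem_filter, mem_Icc]; exact ⟨⟨h1, h2⟩, h3⟩
    rw [hemp] at this
    exact absurd this (notMem_empty _)
  set s := S.max' hne with hs
  have hsS : s ∈ S := S.max'_mem hne
  rw [hS, mem_filter, mem_Icc] at hsS
  obtain ⟨⟨hs1, hsn⟩, has⟩ := hsS
  have hmax : ∀ k, 1 ≤ k → k ≤ n → a k = 1 → k ≤ s := by
    intro k h1 h2 h3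
    exact S.le_max' k (by rw [hS, mem_filter, mem_Icc]; exact ⟨⟨h1, h2⟩, h3⟩)
  rcases Nat.lt_or_ge t s with hts | hst
  · obtain ⟨K, u, w, huw, hcov, hsum, hKt⟩ := ih (s - t) (by omega)
    have hsub : Win a (s - t) t ∪ Icc (s - t + 1) s ⊆ Win a n t := by
      intro k hk
      rw [mem_union, mem_Win, mem_Icc] at hk
      rw [mem_Win]
      rcases hk with ⟨⟨h1, h2⟩, s', h3, h4, h5, h6⟩ | ⟨h1, h2⟩
      · exact ⟨⟨h1, by omega⟩, s', h3, h4, by omega, h6⟩
      · exact ⟨⟨by omega, by omega⟩, s, h2, by omega, hsn, has⟩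
    have hdisj : Disjoint (Win a (s - t) t) (Icc (s - t + 1) s) := by
      rw [disjoint_left]
      intro k h1 h2
      rw [mem_Win] at h1
      rw [mem_Icc] at h2
      omega
    have hcard : (Win a (s - t) t).card + t ≤ (Win a n t).card := by
      have h1 := card_le_card hsub
      rw [card_union_of_disjoint hdisj, Nat.card_Icc] at h1
      omega
    refine ⟨K + 1, Function.update u K (s - t + 1), Function.update w K s, ?_, ?_, ?_, ?_⟩
    · intro i hi
      rcases Nat.lt_succ_iff_lt_or_eq.1 hi with h | h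
      · rw [Function.update_of_ne h.ne, Function.update_of_ne h.ne]; exact huw i h
      · rw [h, Function.update_self, Function.update_self]; omega
    · intro k h1 h2 h3
      have h4 := hmax k h1 h2 h3
      rcases Nat.lt_or_ge (s - t) k with h5 | h5
      · refine ⟨K, by omega, ?_, ?_⟩
        · rw [Function.update_self]; omega
        · rw [Function.update_self]; exact h4
      · obtain ⟨i, hi, h6, h7⟩ := hcov k h1 h5 h3
        refine ⟨i, by omega, ?_, ?_⟩
        · rw [Function.update_of_ne hi.ne]; exact h6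
        · rw [Function.update_of_ne hi.ne]; exact h7
    · rw [sum_range_succ, Function.update_self, Function.update_self]
      have h1 : ∑ i ∈ range K, (Function.update w K s i + 1 - Function.update u K (s - t + 1) i) =
          ∑ i ∈ range K, (w i + 1 - u i) := by
        refine sum_congr rfl fun i hi => ?_
        have := mem_range.1 hi
        rw [Function.update_of_ne this.ne, Function.update_of_ne this.ne]
      rw [h1]
      omega
    · rw [Nat.add_mul, Nat.one_mul]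
      omega
  · have hsub : Icc 1 s ⊆ Win a n t := by
      intro k hk
      rw [mem_Icc] at hk
      rw [mem_Win]
      exact ⟨⟨hk.1, by omega⟩, s, hk.2, by omega, hsn, has⟩
    have hcard := card_le_card hsub
    rw [Nat.card_Icc] at hcard
    refine ⟨1, fun _ => 1, fun _ => s, ?_, ?_, ?_, ?_⟩
    · intro i _; exact hs1
    · intro k h1 h2 h3
      exact ⟨0, by omega, h1, hmax k h1 h2 h3⟩
    · rw [sum_range_one]; exact hcard
    · omega

/-- The number of windows with a one is at least a constant times `√(n t)`. -/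
theorem win_ge {α : ℝ} (hα : Irrational α) {D : ℤ} (hD : α ^ 2 = D) :
    ∃ C n₀ : ℕ, 1 ≤ C ∧ 1 ≤ n₀ ∧ ∀ n t : ℕ, n₀ ≤ n → 1 ≤ t → t ≤ n →
      t * n ≤ (2 * C * (Win (dig α) n t).card) ^ 2 := by
  obtain ⟨C, n₀, hC, hn₀, h⟩ := cover hα hD
  refine ⟨C, n₀, hC, hn₀, fun n t hn ht htn => ?_⟩
  obtain ⟨K, u, w, huw, hcov, hsum, hKt⟩ := winCover (dig α) t ht n
  have h1 := h n K hn u w huw (fun k hk hk1 => by
    rcases Nat.eq_zero_or_pos k with h0 | h0
    · rw [h0, dig_zero] at hk1; omega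
    · exact hcov k h0 hk hk1)
  set L := (Win (dig α) n t).card with hL
  have h2 : t * n ≤ C * ((L + t) * L) := by
    calc t * n ≤ t * (C * (K * ∑ i ∈ range K, (w i + 1 - u i))) := Nat.mul_le_mul_left _ h1
      _ = C * ((K * t) * ∑ i ∈ range K, (w i + 1 - u i)) := by ring
      _ ≤ C * ((L + t) * L) := Nat.mul_le_mul_left _ (Nat.mul_le_mul hKt hsum)
  rcases Nat.lt_or_ge L t with h3 | h3
  · have h4 : t * n ≤ t * (2 * C * L) := by
      calc t * n ≤ C * ((L + t) * L) := h2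
        _ ≤ C * ((t + t) * L) := Nat.mul_le_mul_left _ (Nat.mul_le_mul_right _ (by omega))
        _ = t * (2 * C * L) := by ring
    have h5 : n ≤ 2 * C * L := Nat.le_of_mul_le_mul_left h4 (by omega)
    calc t * n ≤ (2 * C * L) * (2 * C * L) := Nat.mul_le_mul (htn.trans h5) h5
      _ = _ := by ring
  · calc t * n ≤ C * ((L + t) * L) := h2
      _ ≤ C * ((L + L) * L) := Nat.mul_le_mul_left _ (Nat.mul_le_mul_right _ (by omega))
      _ = 2 * C * L ^ 2 := by ring
      _ ≤ 2 * C * (2 * C) * L ^ 2 := by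
          refine Nat.mul_le_mul_right _ ?_
          exact Nat.le_mul_of_pos_right _ (by omega)
      _ = _ := by ring

/-- a one within the next `t` places makes the fractional part at least `2 ^ (-t)` -/
lemma fract_of_win {α : ℝ} {n t k : ℕ} (h : k ∈ Win (dig α) n t) :
    1 ≤ 2 ^ t * Int.fract (α * 2 ^ (k - 1)) := by
  rw [mem_Win] at h
  obtain ⟨⟨hk1, hkn⟩, s, h1, h2, h3, h4⟩ := h
  by_contra hcon
  push Not at hcon
  set z := α * 2 ^ (k - 1) with hz
  have h5 : ⌊α * 2 ^ s⌋ = 2 * (2 ^ (s - k) * ⌊z⌋) := by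
    rw [Int.floor_eq_iff]
    have e : α * 2 ^ s = 2 ^ (s - k + 1) * ⌊z⌋ + 2 ^ (s - k + 1) * Int.fract z := by
      rw [← mul_add, Int.floor_add_fract, hz]
      have : (2 : ℝ) ^ s = 2 ^ (s - k + 1) * 2 ^ (k - 1) := by rw [← pow_add]; congr 1; omega
      rw [this]; ring
    have h6 : (2 : ℝ) ^ (s - k + 1) * Int.fract z ≤ 2 ^ t * Int.fract z :=
      mul_le_mul_of_nonneg_right (pow_le_pow_right₀ (by norm_num) (by omega)) (Int.fract_nonneg _)
    have h7 : 0 ≤ (2 : ℝ) ^ (s - k + 1) * Int.fract z :=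
      mul_nonneg (by positivity) (Int.fract_nonneg _)
    have h8 : (2 : ℝ) ^ (s - k + 1) = 2 * 2 ^ (s - k) := by rw [pow_succ]; ring
    rw [e]
    push_cast
    constructor
    · rw [h8] at h7 ⊢; linarith
    · rw [h8] at h6 ⊢; linarith
  unfold dig at h4
  rw [if_neg (by omega), h5] at h4
  omega

/-- a fractional part of at least `2 ^ (-j)` gives a one within the next `j` places -/
lemma one_of_fract {α : ℝ} {j k : ℕ} (hk : 1 ≤ k)
    (h : 1 ≤ 2 ^ j * Int.fract (α * 2 ^ (k - 1))) : ∃ i < j, dig α (k + i) = 1 := by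
  by_contra hcon
  push Not at hcon
  have h0 : ∀ i, i ≤ j → ⌊α * 2 ^ (k - 1 + i)⌋ = 2 ^ i * ⌊α * 2 ^ (k - 1)⌋ := by
    intro i
    induction i with
    | zero => intro _; simp
    | succ i ih =>
      intro hi
      have h1 : dig α (k - 1 + i + 1) = 0 := by
        have h2 := hcon i (by omega)
        have h3 := dig_le α (k + i)
        have h4 : k - 1 + i + 1 = k + i := by omega
        rw [h4]
        omega
      have h5 := floor_succ α (k - 1 + i)
      rw [h1, ih (by omega)] at h5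
      have h6 : k - 1 + (i + 1) = k - 1 + i + 1 := by omega
      rw [h6, h5, pow_succ]
      push_cast
      ring
  have h1 := h0 j le_rfl
  have h2 := Int.lt_floor_add_one (α * 2 ^ (k - 1 + j))
  rw [h1] at h2
  push_cast at h2
  rw [Int.fract, pow_add] at *
  nlinarith

/-- the number of ones up to the place `n` -/
noncomputable def cnt (α : ℝ) (n : ℕ) : ℕ := ((Icc 1 n).filter (fun k => dig α k = 1)).card

lemma cnt_shift (α : ℝ) (n i : ℕ) :
    ((Icc 1 n).filter (fun k => dig α (k + i) = 1)).card ≤ cnt α n + i := by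
  have h1 : ((Icc 1 n).filter (fun k => dig α (k + i) = 1)).card ≤
      ((Icc 1 (n + i)).filter (fun k => dig α k = 1)).card := by
    refine card_le_card_of_injOn (fun k => k + i) ?_ ?_
    · intro k hk
      rw [mem_coe, mem_filter, mem_Icc] at hk
      simp only [mem_coe, mem_filter, mem_Icc]
      exact ⟨⟨by omega, by omega⟩, hk.2⟩
    · intro x _ y _ h
      simpa using h
  have h2 : (Icc 1 (n + i)).filter (fun k => dig α k = 1) ⊆
      (Icc 1 n).filter (fun k => dig α k = 1) ∪ Icc (n + 1) (n + i) := by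
    intro k hk
    rw [mem_filter, mem_Icc] at hk
    rw [mem_union, mem_filter, mem_Icc, mem_Icc]
    by_cases h : k ≤ n
    · exact Or.inl ⟨⟨hk.1.1, h⟩, hk.2⟩
    · exact Or.inr ⟨by omega, hk.1.2⟩
  have h3 := (card_le_card h2).trans (card_union_le _ _)
  rw [Nat.card_Icc] at h3
  unfold cnt
  omega

/-- The main counting inequality. -/
lemma counting {ξ : ℝ} (j M Q t n : ℕ) (hM : 2 ^ j ≤ M) (hQ0 : 0 < Q)
    (hQ : ∀ q, 1 ≤ q → q ≤ 2 ^ j → q ∣ Q) (hQt : Q * 2 ^ t ≤ 2 * M)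
    (B : Finset ℕ) (hB : B ⊆ range M) (T : ℝ) (hT : ∀ m ∈ B, (cnt (m * ξ) n : ℝ) ≤ T) :
    ((Win (dig (Q * ξ)) n t).card : ℝ) * (2 ^ j * B.card) ≤
      2 ^ j * (B.card * (j * (T + j))) + 12 * M * (Win (dig (Q * ξ)) n t).card := by
  classical
  set Wn := Win (dig (Q * ξ)) n t with hWn
  set P : ℕ → ℕ → Prop := fun k m => 1 / ((2 ^ j : ℕ) : ℝ) ≤ Int.fract ((m : ℝ) * (ξ * 2 ^ (k - 1)))
    with hP
  have hQR : (0 : ℝ) < Q := by exact_mod_cast hQ0
  have h2j : (0 : ℝ) < 2 ^ j := by positivity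
  -- for each window
  have h1 : ∀ k ∈ Wn, 2 ^ j * B.card ≤ 2 ^ j * (B.filter (fun m => P k m)).card + 12 * M := by
    intro k hk
    have h2 := fract_of_win hk
    have h3 : (Q : ℝ) * ξ * 2 ^ (k - 1) = Q * (ξ * 2 ^ (k - 1)) := by ring
    rw [h3] at h2
    have h4 : (Q : ℝ) ≤ 2 * M * Int.fract (Q * (ξ * 2 ^ (k - 1))) := by
      have h5 : (Q : ℝ) * 2 ^ t ≤ 2 * M := by exact_mod_cast hQt
      have h6 := Int.fract_nonneg ((Q : ℝ) * (ξ * 2 ^ (k - 1)))
      calc (Q : ℝ) = Q * 1 := (mul_one _).symm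
        _ ≤ Q * (2 ^ t * Int.fract (Q * (ξ * 2 ^ (k - 1)))) := mul_le_mul_of_nonneg_left h2 hQR.le
        _ = (Q * 2 ^ t) * Int.fract (Q * (ξ * 2 ^ (k - 1))) := by ring
        _ ≤ _ := mul_le_mul_of_nonneg_right h5 h6
    have h5 := rot (ξ * 2 ^ (k - 1)) (2 ^ j) M Q Nat.one_le_two_pow hM hQ0 hQ h4
    have h6 : B.card ≤ (B.filter (fun m => P k m)).card + ((range M).filter
        (fun m : ℕ => Int.fract ((m : ℝ) * (ξ * 2 ^ (k - 1))) < 1 / ((2 ^ j : ℕ) : ℝ))).card := by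
      rw [← card_filter_add_card_filter_not (s := B) (fun m => P k m)]
      refine Nat.add_le_add_left (card_le_card ?_) _
      intro m hm
      rw [mem_filter] at hm ⊢
      exact ⟨hB hm.1, not_le.1 hm.2⟩
    calc 2 ^ j * B.card ≤ 2 ^ j * ((B.filter (fun m => P k m)).card + ((range M).filter
        (fun m : ℕ => Int.fract ((m : ℝ) * (ξ * 2 ^ (k - 1))) < 1 / ((2 ^ j : ℕ) : ℝ))).card) :=
          Nat.mul_le_mul_left _ h6
      _ ≤ _ := by rw [Nat.mul_add]; exact Nat.add_le_add_left h5 _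
  have h2 : Wn.card * (2 ^ j * B.card) ≤
      2 ^ j * ∑ k ∈ Wn, (B.filter (fun m => P k m)).card + 12 * M * Wn.card := by
    calc Wn.card * (2 ^ j * B.card) = ∑ _k ∈ Wn, 2 ^ j * B.card := by
          rw [sum_const, smul_eq_mul]
      _ ≤ ∑ k ∈ Wn, (2 ^ j * (B.filter (fun m => P k m)).card + 12 * M) := sum_le_sum h1
      _ = _ := by rw [sum_add_distrib, sum_const, smul_eq_mul, ← mul_sum, Nat.mul_comm Wn.card]
  have h3 : ∑ k ∈ Wn, (B.filter (fun m => P k m)).card =
      ∑ m ∈ B, (Wn.filter (fun k => P k m)).card := by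
    simp only [card_filter]
    rw [sum_comm]
  have h4 : ∀ m ∈ B, (((Wn.filter (fun k => P k m)).card : ℕ) : ℝ) ≤ j * (T + j) := by
    intro m hm
    have h5 : Wn.filter (fun k => P k m) ⊆
        (range j).biUnion (fun i => (Icc 1 n).filter (fun k => dig (m * ξ) (k + i) = 1)) := by
      intro k hk
      rw [mem_filter] at hk
      obtain ⟨hk1, hk2⟩ := hk
      have hk3 := (mem_Win.1 hk1).1
      have h6 : 1 ≤ 2 ^ j * Int.fract ((m : ℝ) * ξ * 2 ^ (k - 1)) := by
        have h7 : 1 / ((2 ^ j : ℕ) : ℝ) ≤ Int.fract ((m : ℝ) * (ξ * 2 ^ (k - 1))) := hk2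
        rw [mul_assoc (m : ℝ)]
        push_cast at h7
        rw [div_le_iff₀ h2j] at h7
        linarith
      obtain ⟨i, hi, h7⟩ := one_of_fract hk3.1 h6
      rw [mem_biUnion]
      exact ⟨i, mem_range.2 hi, by rw [mem_filter, mem_Icc]; exact ⟨hk3, h7⟩⟩
    have h6 : (Wn.filter (fun k => P k m)).card ≤ ∑ i ∈ range j, (cnt (m * ξ) n + j) := by
      refine (card_le_card h5).trans (card_biUnion_le.trans (sum_le_sum fun i hi => ?_))
      have := cnt_shift (m * ξ) n i
      have := mem_range.1 hi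
      omega
    rw [sum_const, card_range, smul_eq_mul] at h6
    have h7 : (((Wn.filter (fun k => P k m)).card : ℕ) : ℝ) ≤ j * (cnt (m * ξ) n + j) := by
      exact_mod_cast h6
    have h8 := hT m hm
    have h9 : (0 : ℝ) ≤ j := Nat.cast_nonneg _
    nlinarith
  have h5 : ((∑ k ∈ Wn, (B.filter (fun m => P k m)).card : ℕ) : ℝ) ≤ B.card * (j * (T + j)) := by
    rw [h3]
    push_cast
    calc ∑ m ∈ B, (((Wn.filter (fun k => P k m)).card : ℕ) : ℝ) ≤ ∑ m ∈ B, (j * (T + j)) :=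
          sum_le_sum h4
      _ = _ := by rw [sum_const, nsmul_eq_mul]
  have h6 : (Wn.card : ℝ) * (2 ^ j * B.card) ≤
      2 ^ j * ((∑ k ∈ Wn, (B.filter (fun m => P k m)).card : ℕ) : ℝ) + 12 * M * Wn.card := by
    exact_mod_cast h2
  have h7 := mul_le_mul_of_nonneg_left h5 h2j.le
  linarith

/-- The ones of almost all multiples. -/
theorem almost {ξ : ℝ} (hξ : Irrational ξ) {D : ℤ} (hD : ξ ^ 2 = D) (ε : ℝ) (hε : 0 < ε) :
    ∃ c : ℝ, 0 < c ∧ ∃ M₀ : ℕ, ∀ M n : ℕ, M₀ ≤ M → M ≤ 2 ^ n →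
      (((range M).filter (fun m : ℕ => (cnt (m * ξ) n : ℝ) <
        c * Real.sqrt (n * Real.log M))).card : ℝ) ≤ ε * M := by
  classical
  obtain ⟨j, hj⟩ := pow_unbounded_of_one_lt (48 / ε) (by norm_num : (1 : ℝ) < 2)
  obtain ⟨Q, hQdef⟩ : ∃ Q : ℕ, Q = (2 ^ j).factorial := ⟨_, rfl⟩
  have hQ0 : 0 < Q := by rw [hQdef]; exact Nat.factorial_pos _
  have hQ : ∀ q, 1 ≤ q → q ≤ 2 ^ j → q ∣ Q := by
    intro q h1 h2
    rw [hQdef]
    exact Nat.dvd_factorial (by omega) h2
  have hα : Irrational ((Q : ℝ) * ξ) := by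
    rw [mul_comm]; exact hξ.mul_natCast (by omega)
  have hD' : ((Q : ℝ) * ξ) ^ 2 = ((Q ^ 2 * D : ℤ) : ℝ) := by
    push_cast
    rw [mul_pow, hD]
  obtain ⟨C, n₀, hC, hn₀, hwin⟩ := win_ge hα hD'
  obtain ⟨s, hs⟩ : ∃ s : ℕ, Q ≤ 2 ^ s := ⟨Q, Nat.lt_two_pow_self.le⟩
  have hCR : (1 : ℝ) ≤ C := by exact_mod_cast hC
  set J : ℕ := j + 1 with hJ
  have hJR : (1 : ℝ) ≤ J := by rw [hJ]; push_cast; have : (0 : ℝ) ≤ j := Nat.cast_nonneg _; linarith
  have hjJ : (j : ℝ) ≤ J := by rw [hJ]; push_cast; linarith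
  refine ⟨1 / (16 * J * C), by positivity, 2 ^ (s + n₀ + j + (4 * C * J ^ 2 + 1) + s + 1), ?_⟩
  intro M n hM hMn
  set B := (range M).filter (fun m : ℕ => (cnt (m * ξ) n : ℝ) <
        1 / (16 * J * C) * Real.sqrt (n * Real.log M)) with hB
  by_contra hcon
  push Not at hcon
  have hMpos : 0 < M := lt_of_lt_of_le (by positivity) hM
  have hMR : (0 : ℝ) < M := by exact_mod_cast hMpos
  set l := Nat.log 2 M with hl
  have hl1 : 2 ^ l ≤ M := Nat.pow_log_le_self 2 hMpos.ne'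
  have hl2 : M < 2 ^ (l + 1) := Nat.lt_pow_succ_log_self (by norm_num) M
  have hl3 : s + n₀ + j + (4 * C * J ^ 2 + 1) + s + 1 ≤ l := by
    have : 2 ^ (s + n₀ + j + (4 * C * J ^ 2 + 1) + s + 1) < 2 ^ (l + 1) := lt_of_le_of_lt hM hl2
    have := (Nat.pow_lt_pow_iff_right (by norm_num)).1 this
    omega
  have hln : l ≤ n := by
    have : 2 ^ l ≤ 2 ^ n := hl1.trans hMn
    exact (Nat.pow_le_pow_iff_right (by norm_num)).1 this
  set t := l - s with ht
  have ht1 : 1 ≤ t := by omega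
  have htn : t ≤ n := by omega
  have hts : t + s = l := by omega
  have ht2 : 4 * C * J ^ 2 + 1 ≤ t := by omega
  have hw := hwin n t (by omega) ht1 htn
  set L := (Win (dig (Q * ξ)) n t).card with hL
  have hQt : Q * 2 ^ t ≤ 2 * M := by
    calc Q * 2 ^ t ≤ 2 ^ s * 2 ^ t := Nat.mul_le_mul_right _ hs
      _ = 2 ^ l := by rw [← pow_add, Nat.add_comm, hts]
      _ ≤ 2 * M := by omega
  have hMj : 2 ^ j ≤ M := (Nat.pow_le_pow_right (by norm_num) (by omega)).trans hl1
  have hcount := counting j M Q t n hMj hQ0 hQ hQt B (filter_subset _ _)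
    (1 / (16 * J * C) * Real.sqrt (n * Real.log M)) (fun m hm => by
      rw [hB, mem_filter] at hm
      exact hm.2.le)
  rw [← hL] at hcount
  set b : ℝ := (B.card : ℝ) with hb
  have hbpos : 0 < b := lt_of_le_of_lt (by positivity) hcon
  have h2j : (0 : ℝ) < 2 ^ j := by positivity
  set T : ℝ := 1 / (16 * J * C) * Real.sqrt (n * Real.log M) with hT
  have hT0 : 0 ≤ T := by positivity
  have hL0 : (0 : ℝ) ≤ L := Nat.cast_nonneg _
  -- the main inequality
  have h1 : 12 * (M : ℝ) ≤ 2 ^ j * b / 4 := by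
    have h2 : 48 < 2 ^ j * ε := by rwa [div_lt_iff₀ hε] at hj
    have h3 : ε * M * 2 ^ j ≤ b * 2 ^ j := mul_le_mul_of_nonneg_right hcon.le h2j.le
    nlinarith
  have h2 : 3 * (L : ℝ) ≤ 4 * (J * (T + J)) := by
    have h3 : 12 * (M : ℝ) * L ≤ 2 ^ j * b / 4 * L := mul_le_mul_of_nonneg_right h1 hL0
    have h4 : (j : ℝ) * (T + j) ≤ J * (T + J) := by
      have : (0 : ℝ) ≤ j := Nat.cast_nonneg _
      exact mul_le_mul hjJ (by linarith) (by positivity) (by positivity)
    have h5 : 2 ^ j * (b * (j * (T + j))) ≤ 2 ^ j * (b * (J * (T + J))) :=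
      mul_le_mul_of_nonneg_left (mul_le_mul_of_nonneg_left h4 hbpos.le) h2j.le
    have h6 : (2 ^ j * b) * (3 * L) ≤ (2 ^ j * b) * (4 * (J * (T + J))) := by nlinarith
    exact le_of_mul_le_mul_left h6 (by positivity)
  set S := Real.sqrt (t * n) with hS
  have hS1 : S ≤ 2 * C * L := by
    rw [hS]
    have : ((t * n : ℕ) : ℝ) ≤ ((2 * C * L : ℕ) : ℝ) ^ 2 := by exact_mod_cast hw
    push_cast at this
    rw [Real.sqrt_le_left (by positivity)]
    exact this
  have hS2 : (t : ℝ) ≤ S := by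
    rw [hS]
    apply Real.le_sqrt_of_sq_le
    have : (t : ℝ) ≤ n := by exact_mod_cast htn
    have : (0 : ℝ) ≤ t := Nat.cast_nonneg _
    nlinarith
  have hlog : Real.log M ≤ 2 * t := by
    have h3 : Real.log M ≤ Real.log (2 ^ (l + 1)) := by
      apply Real.log_le_log hMR
      exact_mod_cast hl2.le
    rw [Real.log_pow] at h3
    have h4 : Real.log 2 ≤ 1 := by
      have := Real.log_two_lt_d9
      linarith
    have h5 : ((l + 1 : ℕ) : ℝ) * Real.log 2 ≤ ((l + 1 : ℕ) : ℝ) * 1 :=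
      mul_le_mul_of_nonneg_left h4 (Nat.cast_nonneg _)
    have h6 : ((l + 1 : ℕ) : ℝ) ≤ 2 * t := by
      have : l + 1 ≤ 2 * t := by omega
      exact_mod_cast this
    linarith
  have hT2 : T ≤ 1 / (16 * J * C) * (2 * S) := by
    rw [hT]
    refine mul_le_mul_of_nonneg_left ?_ (by positivity)
    rw [Real.sqrt_le_left (by positivity), mul_pow, hS, Real.sq_sqrt (by positivity)]
    have : (n : ℝ) * Real.log M ≤ n * (2 * t) := mul_le_mul_of_nonneg_left hlog (Nat.cast_nonneg _)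
    have h7 : (0 : ℝ) ≤ t * n := by positivity
    nlinarith
  have hT3 : (J : ℝ) * T * C ≤ S / 8 := by
    calc (J : ℝ) * T * C ≤ J * (1 / (16 * J * C) * (2 * S)) * C := by
          refine mul_le_mul_of_nonneg_right (mul_le_mul_of_nonneg_left hT2 (by linarith)) (by linarith)
      _ = S / 8 := by field_simp; ring
  have hfin : S ≤ 4 * C * J ^ 2 := by
    have h3 : 3 * (2 * C * (L : ℝ)) ≤ 8 * (J * T * C) + 8 * (C * J ^ 2) := by nlinarith
    nlinarith
  have : ((4 * C * J ^ 2 + 1 : ℕ) : ℝ) ≤ t := by exact_mod_cast ht2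
  push_cast at this
  linarith

end Pool.Agent.K7.H63.MR
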